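import Mathlib

section

/-!
Milnor Thurston kneading data for the real quadratic map `x ↦ x ^ 2 + c`.
A doubled point `(x, true)` stands for the right side of `x`, `(x, false)` for the left side.
-/

namespace Pool.Agent.MP_994d64_an

open Classical in
/-- The doubled point lies on the increasing lap. -/
noncomputable def pos (P : ℝ × Bool) : Bool := decide (0 < P.1 ∨ (P.1 = 0 ∧ P.2 = true))

/-- Sign of the lap. -/
noncomputable def eps (P : ℝ × Bool) : ℤ := if pos P then 1 else -1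

/-- The quadratic map on doubled points. -/
noncomputable def F (c : ℝ) (P : ℝ × Bool) : ℝ × Bool :=
  (P.1 ^ 2 + c, if pos P then P.2 else !P.2)

/-- Lexicographic order on doubled points. -/
def LE2 (P Q : ℝ × Bool) : Prop := P.1 < Q.1 ∨ (P.1 = Q.1 ∧ (P.2 = true → Q.2 = true))

/-- Product of the first `n + 1` signs along the orbit. -/
noncomputable def th (c : ℝ) : ℕ → ℝ × Bool → ℤ
  | 0, P => eps P
  | n + 1, P => eps P * th c n (F c P)

/-- Coefficients of the kneading determinant. -/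
noncomputable def dd (c : ℝ) : ℕ → ℤ
  | 0 => 1
  | m + 1 => th c m (c, true)

/-- Number of points between `P` and `Q` that hit the critical point first at time `k`. -/
noncomputable def gg (c : ℝ) : ℕ → ℝ × Bool → ℝ × Bool → ℕ
  | 0, P, Q => if pos P = false ∧ pos Q = true then 1 else 0
  | k + 1, P, Q =>
      if pos P then gg c k (F c P) (F c Q)
      else if pos Q then gg c k (c, true) (F c P) + gg c k (c, true) (F c Q)
      else gg c k (F c Q) (F c P)

/-- The fixed point `β`. -/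
noncomputable def be (c : ℝ) : ℝ := (1 + √(1 - 4 * c)) / 2

/-- The count for the whole interval. -/
noncomputable def GG (c : ℝ) (k : ℕ) : ℕ := gg c k (-be c, true) (be c, false)

/-- Twisted itinerary series. -/
noncomputable def Th (c : ℝ) (P : ℝ × Bool) (t : ℝ) : ℝ := ∑' n, (th c n P : ℝ) * t ^ n

/-- Kneading determinant. -/
noncomputable def DD (c : ℝ) (t : ℝ) : ℝ := ∑' n, (dd c n : ℝ) * t ^ n

/-- Topological entropy of the quadratic map on `[-β, β]`. -/
noncomputable def ent (c : ℝ) : EReal :=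
  Dynamics.coverEntropy (fun x : ℝ => x ^ 2 + c) (Set.Icc (-be c) (be c))

/-- The critical orbit is finite. -/
def PCF (c : ℝ) : Prop := (Set.range fun n : ℕ => (fun x : ℝ => x ^ 2 + c)^[n + 1] 0).Finite

/-- A critical orbit of the tent map of slope `l` with its signs, eventually periodic. -/
structure Tent (l : ℝ) (x : ℕ → ℝ) (e : ℕ → ℤ) : Prop where
  one_lt : 1 < l
  le_two : l ≤ 2
  x0 : x 0 = 1
  sign : ∀ n, e n = 1 ∨ e n = -1
  step : ∀ n, x (n + 1) = 1 + e n * l * x n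
  le_one : ∀ n, x n ≤ 1
  per : ∃ n p, 0 < p ∧ x (n + p) = x n ∧ ∀ k, e (n + k + p) = e (n + k)

/-- The orbit with the same signs and slope `z`. -/
noncomputable def ww (e : ℕ → ℤ) (z : ℂ) : ℕ → ℂ
  | 0 => 1
  | n + 1 => 1 + e n * z * ww e z n

lemma be_sq {c : ℝ} (h : c ≤ 1 / 4) : be c ^ 2 + c = be c := by
  have : √(1 - 4 * c) ^ 2 = 1 - 4 * c := Real.sq_sqrt (by linarith)
  unfold be; nlinarith

lemma be_ge (c : ℝ) : 1 / 2 ≤ be c := by
  have := Real.sqrt_nonneg (1 - 4 * c)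
  unfold be; linarith

lemma be_le {c : ℝ} (h : -2 ≤ c) : be c ≤ 2 := by
  have : √(1 - 4 * c) ≤ 3 := Real.sqrt_le_iff.2 ⟨by norm_num, by linarith⟩
  unfold be; linarith

lemma mapsTo {c : ℝ} (h1 : -2 ≤ c) (h2 : c ≤ 1 / 4) :
    Set.MapsTo (fun x : ℝ => x ^ 2 + c) (Set.Icc (-be c) (be c)) (Set.Icc (-be c) (be c)) := by
  intro x hx
  have := be_sq h2; have := be_ge c; have := be_le h1
  constructor
  · show -be c ≤ x ^ 2 + c
    nlinarith [sq_nonneg x]
  · show x ^ 2 + c ≤ be c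
    nlinarith [hx.1, hx.2]

end Pool.Agent.MP_994d64_an

end

section

namespace Pool.Agent.MP_994d64_an

open Finset

lemma pos_iff (P : ℝ × Bool) : pos P = true ↔ 0 < P.1 ∨ (P.1 = 0 ∧ P.2 = true) := by
  unfold pos; simp only [decide_eq_true_eq]

lemma not_pos_iff (P : ℝ × Bool) : pos P = false ↔ P.1 < 0 ∨ (P.1 = 0 ∧ P.2 = false) := by
  rw [← Bool.not_eq_true, pos_iff]
  rcases lt_trichotomy P.1 0 with h | h | h
  · simp [h, h.ne, h.le]
  · simp [h]
  · simp [h, h.ne', h.le]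

lemma LE2.pos_of {P Q : ℝ × Bool} (h : LE2 P Q) (hP : pos P = true) : pos Q = true := by
  rw [pos_iff] at *
  rcases h with h | ⟨h, h'⟩
  · left; rcases hP with hP | ⟨hP, _⟩ <;> linarith
  · rcases hP with hP | ⟨hP, hP'⟩
    · left; linarith
    · right; exact ⟨by linarith, h' hP'⟩

lemma LE2.F_pos (c : ℝ) {P Q : ℝ × Bool} (h : LE2 P Q) (hP : pos P = true) :
    LE2 (F c P) (F c Q) := by
  have hQ := h.pos_of hP
  have h0 : 0 ≤ P.1 := by rcases (pos_iff P).1 hP with h | ⟨h, _⟩ <;> linarith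
  unfold F
  simp only [hP, hQ, if_true]
  rcases h with h | ⟨h, h'⟩
  · left; show P.1 ^ 2 + c < Q.1 ^ 2 + c; nlinarith
  · right; exact ⟨by show P.1 ^ 2 + c = Q.1 ^ 2 + c; rw [h], h'⟩

lemma LE2.F_neg (c : ℝ) {P Q : ℝ × Bool} (h : LE2 P Q) (hP : pos P = false) (hQ : pos Q = false) :
    LE2 (F c Q) (F c P) := by
  have h0 : Q.1 ≤ 0 := by rcases (not_pos_iff Q).1 hQ with h | ⟨h, _⟩ <;> linarith
  unfold F
  simp only [hP, hQ, Bool.false_eq_true, if_false]
  rcases h with h | ⟨h, h'⟩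
  · left; show Q.1 ^ 2 + c < P.1 ^ 2 + c; nlinarith
  · right
    refine ⟨by show Q.1 ^ 2 + c = P.1 ^ 2 + c; rw [h], ?_⟩
    show (!Q.2) = true → (!P.2) = true
    cases h1 : P.2 <;> cases h2 : Q.2 <;> simp_all

lemma crit_le (c : ℝ) (P : ℝ × Bool) : LE2 (c, true) (F c P) := by
  rcases eq_or_ne P.1 0 with h | h
  · right
    refine ⟨by simp [F, h], fun _ => ?_⟩
    cases h2 : P.2
    · have : pos P = false := (not_pos_iff P).2 (Or.inr ⟨h, h2⟩)
      simp [F, this, h2]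
    · have : pos P = true := (pos_iff P).2 (Or.inr ⟨h, h2⟩)
      simp [F, this, h2]
  · left
    show c < P.1 ^ 2 + c
    have := sq_pos_of_ne_zero h
    linarith

lemma ident (c : ℝ) (n : ℕ) : ∀ P Q : ℝ × Bool, LE2 P Q →
    th c n Q - th c n P = 2 * ∑ k ∈ range (n + 1), (gg c k P Q : ℤ) * dd c (n - k) := by
  induction n with
  | zero =>
    intro P Q h
    cases hP : pos P
    · cases hQ : pos Q <;> simp [th, gg, dd, eps, hP, hQ]
    · have hQ := h.pos_of hP
      simp [th, gg, dd, eps, hP, hQ]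
  | succ n ih =>
    intro P Q h
    rw [sum_range_succ']
    simp only [Nat.add_sub_add_right, Nat.sub_zero]
    cases hP : pos P
    · cases hQ : pos Q
      · have := ih _ _ (h.F_neg c hP hQ)
        simp only [th, gg, eps, hP, hQ, Bool.false_eq_true, if_false, and_false]
        push_cast
        linarith
      · have h1 := ih _ _ (crit_le c P)
        have h2 := ih _ _ (crit_le c Q)
        have h3 : dd c (n + 1) = th c n (c, true) := rfl
        simp only [th, gg, eps, hP, hQ, Bool.false_eq_true, if_false, if_true, and_self, h3]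
        push_cast
        simp only [add_mul, sum_add_distrib]
        linarith
    · have hQ := h.pos_of hP
      have := ih _ _ (h.F_pos c hP)
      simp only [th, gg, eps, hP, hQ, if_true, Bool.true_eq_false, false_and, if_false]
      push_cast
      linarith

lemma th_top {c : ℝ} (h : c ≤ 1 / 4) (n : ℕ) : th c n (be c, false) = 1 := by
  have hp : pos (be c, false) = true := (pos_iff _).2 (Or.inl (by have := be_ge c; show 0 < be c; linarith))
  induction n with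
  | zero => simp [th, eps, hp]
  | succ n ih => simp [th, eps, hp, F, be_sq h, ih]

lemma th_bot {c : ℝ} (h : c ≤ 1 / 4) (n : ℕ) : th c n (-be c, true) = -1 := by
  have hp : pos (-be c, true) = false :=
    (not_pos_iff _).2 (Or.inl (by have := be_ge c; show -be c < 0; linarith))
  cases n with
  | zero => simp [th, eps, hp]
  | succ n => simp [th, eps, hp, F, be_sq h, th_top h]

lemma ident_GG {c : ℝ} (h : c ≤ 1 / 4) (n : ℕ) :
    ∑ k ∈ range (n + 1), (GG c k : ℝ) * (dd c (n - k) : ℝ) = 1 := by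
  have h1 := ident c n (-be c, true) (be c, false)
    (Or.inl (by have := be_ge c; show -be c < be c; linarith))
  rw [th_top h, th_bot h] at h1
  have h2 : ∑ k ∈ range (n + 1), (GG c k : ℤ) * dd c (n - k) = 1 := by unfold GG; linarith
  exact_mod_cast h2

end Pool.Agent.MP_994d64_an

end

section

namespace Pool.Agent.MP_994d64_an

open Finset

lemma prings_bound (d : ℕ → ℝ) (hd : ∀ n, |d n| ≤ 1) {t r : ℝ} (ht0 : 0 ≤ t) (htr : t ≤ r)
    (n : ℕ) : ‖d n * t ^ n‖ ≤ r ^ n := by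
  rw [Real.norm_eq_abs, abs_mul, abs_of_nonneg (pow_nonneg ht0 n)]
  calc |d n| * t ^ n ≤ 1 * t ^ n := mul_le_mul_of_nonneg_right (hd n) (pow_nonneg ht0 n)
    _ = t ^ n := one_mul _
    _ ≤ r ^ n := pow_le_pow_left₀ ht0 htr n

lemma prings_summable_norm (d : ℕ → ℝ) (hd : ∀ n, |d n| ≤ 1) {t : ℝ} (ht0 : 0 ≤ t)
    (ht1 : t < 1) : Summable fun n => ‖d n * t ^ n‖ :=
  Summable.of_nonneg_of_le (fun _ => norm_nonneg _) (prings_bound d hd ht0 le_rfl)
    (summable_geometric_of_lt_one ht0 ht1)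

lemma prings_contOn (d : ℕ → ℝ) (hd : ∀ n, |d n| ≤ 1) {r : ℝ} (hr1 : r < 1) :
    ContinuousOn (fun t : ℝ => ∑' n, d n * t ^ n) (Set.Icc 0 r) := by
  rcases lt_or_ge r 0 with hr | hr
  · rw [Set.Icc_eq_empty (not_le.2 hr)]; exact continuousOn_empty _
  · refine continuousOn_tsum (u := fun n => r ^ n) (fun n => ?_)
      (summable_geometric_of_lt_one hr hr1) (fun n t ht => prings_bound d hd ht.1 ht.2 n)
    fun_prop

lemma prings_fin (d : ℕ → ℝ) (hd : ∀ n, |d n| ≤ 1) {t r : ℝ} (ht0 : 0 ≤ t) (htr : t ≤ r)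
    (hr1 : r < 1) (m : ℕ) : |∑ j ∈ range m, d j * t ^ j| ≤ (1 - r)⁻¹ := by
  have hr0 : 0 ≤ r := ht0.trans htr
  calc |∑ j ∈ range m, d j * t ^ j| ≤ ∑ j ∈ range m, |d j * t ^ j| := abs_sum_le_sum_abs _ _
    _ ≤ ∑ j ∈ range m, r ^ j := sum_le_sum fun j _ => prings_bound d hd ht0 htr j
    _ ≤ ∑' j, r ^ j :=
        (summable_geometric_of_lt_one hr0 hr1).sum_le_tsum _ fun j _ => pow_nonneg hr0 j
    _ = (1 - r)⁻¹ := tsum_geometric_of_lt_one hr0 hr1

lemma prings_tail (d : ℕ → ℝ) (hd : ∀ n, |d n| ≤ 1) {t r : ℝ} (ht0 : 0 ≤ t) (htr : t ≤ r)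
    (hr1 : r < 1) (m : ℕ) :
    (∑' n, d n * t ^ n) - r ^ m * (1 - r)⁻¹ ≤ ∑ j ∈ range m, d j * t ^ j := by
  have hr0 : 0 ≤ r := ht0.trans htr
  have hs : Summable fun n => d n * t ^ n :=
    (prings_summable_norm d hd ht0 (htr.trans_lt hr1)).of_norm
  have h1 := hs.sum_add_tsum_nat_add m
  have h2 : HasSum (fun n => r ^ m * r ^ n) (r ^ m * (1 - r)⁻¹) :=
    (hasSum_geometric_of_lt_one hr0 hr1).mul_left _
  have h3 : ‖∑' n, d (n + m) * t ^ (n + m)‖ ≤ r ^ m * (1 - r)⁻¹ := by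
    refine tsum_of_norm_bounded h2 fun n => ?_
    have := prings_bound d hd ht0 htr (n + m)
    rwa [pow_add r, mul_comm (r ^ n)] at this
  rw [Real.norm_eq_abs] at h3
  have := (abs_le.1 h3).2
  linarith

lemma prings_flip (g d : ℕ → ℝ) (t : ℝ) (M : ℕ) :
    ∑ n ∈ range M, (∑ k ∈ range (n + 1), g k * d (n - k)) * t ^ n =
      ∑ k ∈ range M, g k * t ^ k * ∑ j ∈ range (M - k), d j * t ^ j := by
  have h := Finset.sum_range_diag_flip M (fun k j => g k * t ^ k * (d j * t ^ j))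
  simp_rw [mul_sum]
  rw [← h]
  refine sum_congr rfl fun n _ => ?_
  rw [sum_mul]
  refine sum_congr rfl fun k hk => ?_
  have hk' : k ≤ n := Nat.lt_succ_iff.1 (mem_range.1 hk)
  have : t ^ n = t ^ k * t ^ (n - k) := by rw [← pow_add, Nat.add_sub_cancel' hk']
  rw [this]; ring

lemma prings_two (g d : ℕ → ℝ) (hg : ∀ k, 0 ≤ g k) (hd : ∀ n, |d n| ≤ 1) (hd0 : d 0 = 1)
    (ha : ∀ n, |∑ k ∈ range (n + 1), g k * d (n - k)| ≤ 1) (n : ℕ) :
    ∑ k ∈ range n, g k ≤ 2 ^ n - 1 ∧ g n ≤ 2 ^ n := by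
  have key : ∀ n, g n ≤ 1 + ∑ k ∈ range n, g k := by
    intro n
    have h := (abs_le.1 (ha n)).2
    rw [sum_range_succ, Nat.sub_self, hd0, mul_one] at h
    have h2 : ∑ k ∈ range n, -g k ≤ ∑ k ∈ range n, g k * d (n - k) := by
      refine sum_le_sum fun k _ => ?_
      have := (abs_le.1 (hd (n - k))).1
      nlinarith [hg k]
    rw [sum_neg_distrib] at h2
    linarith
  have h1 : ∀ n, ∑ k ∈ range n, g k ≤ 2 ^ n - 1 := by
    intro n
    induction n with
    | zero => simp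
    | succ n ih =>
      rw [sum_range_succ, pow_succ]
      have := key n
      linarith
  refine ⟨h1 n, ?_⟩
  have := key n
  have := h1 n
  linarith

lemma prings_rec (g d : ℕ → ℝ) (hg : ∀ k, 0 ≤ g k) (hd : ∀ n, |d n| ≤ 1)
    (ha : ∀ n, |∑ k ∈ range (n + 1), g k * d (n - k)| ≤ 1) {t r e : ℝ} (ht0 : 0 ≤ t)
    (htr : t ≤ r) (hr1 : r < 1) {m : ℕ}
    (hm : ∀ j, m ≤ j → e ≤ ∑ i ∈ range j, d i * t ^ i) (N : ℕ) :
    (1 + e * (1 - r)) * (∑ k ∈ range N, g k * t ^ k) - 1 ≤ ∑ k ∈ range (N + m), g k * t ^ k := by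
  have hB : 0 < 1 - r := by linarith
  have h1 := prings_fin _ ha ht0 htr hr1 (N + m)
  rw [prings_flip] at h1
  have h1' := (abs_le.1 h1).2
  rw [sum_range_add] at h1'
  rw [sum_range_add]
  have h2 : e * ∑ k ∈ range N, g k * t ^ k ≤
      ∑ k ∈ range N, g k * t ^ k * ∑ j ∈ range (N + m - k), d j * t ^ j := by
    rw [mul_sum]
    refine sum_le_sum fun k hk => ?_
    have hk' := mem_range.1 hk
    rw [mul_comm e]
    exact mul_le_mul_of_nonneg_left (hm _ (by omega)) (mul_nonneg (hg k) (pow_nonneg ht0 k))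
  have h3 : -(1 - r)⁻¹ * ∑ k ∈ range m, g (N + k) * t ^ (N + k) ≤
      ∑ k ∈ range m, g (N + k) * t ^ (N + k) * ∑ j ∈ range (N + m - (N + k)), d j * t ^ j := by
    rw [mul_sum]
    refine sum_le_sum fun k _ => ?_
    rw [mul_comm (-(1 - r)⁻¹)]
    exact mul_le_mul_of_nonneg_left (abs_le.1 (prings_fin d hd ht0 htr hr1 _)).1
      (mul_nonneg (hg _) (pow_nonneg ht0 _))
  set S := ∑ k ∈ range N, g k * t ^ k
  set T := ∑ k ∈ range m, g (N + k) * t ^ (N + k)
  have h4 : e * S - (1 - r)⁻¹ * T ≤ (1 - r)⁻¹ := by linarith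
  have h5 := mul_le_mul_of_nonneg_left h4 hB.le
  have h6 : (1 - r) * (1 - r)⁻¹ = 1 := mul_inv_cancel₀ hB.ne'
  have h7 : (1 - r) * (e * S - (1 - r)⁻¹ * T) = (1 - r) * e * S - T := by
    rw [mul_sub, ← mul_assoc (1 - r) _ T, h6]; ring
  rw [h7, h6] at h5
  linarith

lemma prings_growth (u : ℕ → ℝ) (hu : ∀ k, 0 ≤ u k) {κ ρ C : ℝ} {m : ℕ} (hκ : 1 < κ)
    (hρ : 1 < ρ) (hρκ : ρ ^ m < κ)
    (hrec : ∀ N, κ * (∑ k ∈ range N, u k) - 1 ≤ ∑ k ∈ range (N + m), u k)
    (hC : ∀ N, ∑ k ∈ range N, u k ≤ C * ρ ^ N) : Summable u := by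
  have hκ1 : 0 < κ - 1 := by linarith
  refine summable_of_sum_range_le hu (c := (κ - 1)⁻¹ + 1) fun N0 => ?_
  by_contra hcon
  push Not at hcon
  have hc : (κ - 1) * (κ - 1)⁻¹ = 1 := mul_inv_cancel₀ hκ1.ne'
  have hc0 : 0 < (κ - 1)⁻¹ := inv_pos.2 hκ1
  have key : ∀ j, κ ^ j ≤ ∑ k ∈ range (N0 + j * m), u k - (κ - 1)⁻¹ := by
    intro j
    induction j with
    | zero => simp only [pow_zero, zero_mul, add_zero]; linarith
    | succ j ih =>
      have h := hrec (N0 + j * m)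
      have e : N0 + (j + 1) * m = N0 + j * m + m := by ring
      rw [e, pow_succ]
      have := mul_le_mul_of_nonneg_left ih (by linarith : (0 : ℝ) ≤ κ)
      nlinarith
  have hp : 0 < ρ ^ m := pow_pos (by linarith) m
  have hq : 1 < κ / ρ ^ m := (one_lt_div hp).2 hρκ
  obtain ⟨j, hj⟩ := pow_unbounded_of_one_lt (C * ρ ^ N0) hq
  have h1 := key j
  have h2 := hC (N0 + j * m)
  rw [div_pow, lt_div_iff₀ (pow_pos hp j)] at hj
  have h3 : C * ρ ^ (N0 + j * m) = C * ρ ^ N0 * (ρ ^ m) ^ j := by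
    rw [pow_add, mul_comm j m, pow_mul]; ring
  linarith

/-- Pringsheim type lemma. -/
theorem prings (g d : ℕ → ℝ) (hg : ∀ k, 0 ≤ g k) (hd : ∀ n, |d n| ≤ 1) (hd0 : d 0 = 1)
    (ha : ∀ n, |∑ k ∈ Finset.range (n + 1), g k * d (n - k)| ≤ 1) {r : ℝ} (hr0 : 0 ≤ r)
    (hr1 : r < 1) (hD : ∀ t ∈ Set.Icc 0 r, 0 < ∑' n, d n * t ^ n) :
    Summable fun k => g k * r ^ k := by
  have hB : 0 < 1 - r := by linarith
  obtain ⟨t0, ht0, hmin⟩ := isCompact_Icc.exists_isMinOn (Set.nonempty_Icc.2 hr0)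
    (prings_contOn d hd hr1)
  set δ := ∑' n, d n * t0 ^ n with hδ
  have hδ0 : 0 < δ := hD t0 ht0
  obtain ⟨m, hm⟩ := exists_pow_lt_of_lt_one (show 0 < δ / 2 * (1 - r) by positivity) hr1
  have hlow : ∀ t ∈ Set.Icc 0 r, ∀ j, m ≤ j → δ / 2 ≤ ∑ i ∈ range j, d i * t ^ i := by
    intro t ht j hj
    have h1 := prings_tail d hd ht.1 ht.2 hr1 j
    have h2 : δ ≤ ∑' n, d n * t ^ n := hmin ht
    have h3 : r ^ j ≤ r ^ m := pow_le_pow_of_le_one hr0 hr1.le hj
    have h4 : r ^ j * (1 - r)⁻¹ ≤ δ / 2 := by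
      rw [← div_eq_mul_inv, div_le_iff₀ hB]; linarith
    linarith
  have hκ : 1 < 1 + δ / 2 * (1 - r) := by
    have : 0 < δ / 2 * (1 - r) := by positivity
    linarith
  obtain ⟨ρ, hρκ, hρ⟩ : ∃ ρ : ℝ, ρ ^ m < 1 + δ / 2 * (1 - r) ∧ 1 < ρ := by
    have hc : ContinuousAt (fun x : ℝ => x ^ m) 1 := by fun_prop
    have h1 : ∀ᶠ x : ℝ in nhds 1, x ^ m < 1 + δ / 2 * (1 - r) :=
      hc.eventually_lt continuousAt_const (by simpa using sub_pos.2 hκ)
    have h2 : ∀ᶠ x : ℝ in nhdsWithin 1 (Set.Ioi 1), x ^ m < 1 + δ / 2 * (1 - r) :=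
      h1.filter_mono nhdsWithin_le_nhds
    exact (h2.and self_mem_nhdsWithin).exists
  have hρ0 : 0 < ρ := by linarith
  have main : ∀ j : ℕ, ∀ t ∈ Set.Icc 0 r, t ≤ ρ ^ j / 4 → Summable fun k => g k * t ^ k := by
    intro j
    induction j with
    | zero =>
      intro t ht h4
      rw [pow_zero] at h4
      refine Summable.of_nonneg_of_le (fun k => mul_nonneg (hg k) (pow_nonneg ht.1 k))
        (fun k => ?_) summable_geometric_two
      calc g k * t ^ k ≤ 2 ^ k * (1 / 4) ^ k :=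
            mul_le_mul (prings_two g d hg hd hd0 ha k).2 (pow_le_pow_left₀ ht.1 h4 k)
              (pow_nonneg ht.1 k) (by positivity)
        _ = (1 / 2) ^ k := by rw [← mul_pow]; norm_num
    | succ j ih =>
      intro t ht h4
      have hs0 : 0 ≤ t / ρ := div_nonneg ht.1 hρ0.le
      have hs1 : t / ρ ≤ r := (div_le_self ht.1 hρ.le).trans ht.2
      have hs2 : t / ρ ≤ ρ ^ j / 4 := by
        rw [div_le_iff₀ hρ0]
        rw [pow_succ] at h4
        linarith
      have hs := ih (t / ρ) ⟨hs0, hs1⟩ hs2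
      refine prings_growth _ (fun k => mul_nonneg (hg k) (pow_nonneg ht.1 k)) hκ hρ hρκ
        (prings_rec g d hg hd ha ht.1 ht.2 hr1 (hlow t ht)) (C := ∑' k, g k * (t / ρ) ^ k)
        fun N => ?_
      calc ∑ k ∈ range N, g k * t ^ k ≤ ∑ k ∈ range N, g k * (t / ρ) ^ k * ρ ^ N := by
            refine sum_le_sum fun k hk => ?_
            have hk' : k ≤ N := (mem_range.1 hk).le
            have e : g k * t ^ k = g k * (t / ρ) ^ k * ρ ^ k := by
              rw [mul_assoc, ← mul_pow, div_mul_cancel₀ _ hρ0.ne']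
            rw [e]
            exact mul_le_mul_of_nonneg_left (pow_le_pow_right₀ hρ.le hk')
              (mul_nonneg (hg k) (pow_nonneg hs0 k))
        _ = (∑ k ∈ range N, g k * (t / ρ) ^ k) * ρ ^ N := (sum_mul _ _ _).symm
        _ ≤ (∑' k, g k * (t / ρ) ^ k) * ρ ^ N :=
            mul_le_mul_of_nonneg_right
              (hs.sum_le_tsum _ fun k _ => mul_nonneg (hg k) (pow_nonneg hs0 k))
              (pow_nonneg hρ0.le N)
  obtain ⟨j, hj⟩ := pow_unbounded_of_one_lt (4 * r) hρ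
  exact main j r ⟨hr0, le_rfl⟩ (by linarith)

/-- Continuity of a power series with bounded coefficients. -/
theorem series_contOn (d : ℕ → ℝ) (hd : ∀ n, |d n| ≤ 1) {r : ℝ} (hr1 : r < 1) :
    ContinuousOn (fun t : ℝ => ∑' n, d n * t ^ n) (Set.Icc 0 r) := by
  exact prings_contOn d hd hr1

/-- Cauchy product. -/
theorem series_mul (g d : ℕ → ℝ) (hg : ∀ k, 0 ≤ g k) (hd : ∀ n, |d n| ≤ 1) {t : ℝ} (ht0 : 0 ≤ t)
    (ht1 : t < 1) (hs : Summable fun k => g k * t ^ k) :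
    (∑' k, g k * t ^ k) * (∑' n, d n * t ^ n) =
      ∑' n, (∑ k ∈ Finset.range (n + 1), g k * d (n - k)) * t ^ n := by
  have h1 : Summable fun k => ‖g k * t ^ k‖ := by
    refine hs.congr fun k => ?_
    rw [Real.norm_eq_abs, abs_of_nonneg (mul_nonneg (hg k) (pow_nonneg ht0 k))]
  rw [tsum_mul_tsum_eq_tsum_sum_range_of_summable_norm h1 (prings_summable_norm d hd ht0 ht1)]
  refine tsum_congr fun n => ?_
  rw [sum_mul]
  refine sum_congr rfl fun k hk => ?_
  have hk' : k ≤ n := Nat.lt_succ_iff.1 (mem_range.1 hk)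
  have : t ^ n = t ^ k * t ^ (n - k) := by rw [← pow_add, Nat.add_sub_cancel' hk']
  rw [this]; ring

end Pool.Agent.MP_994d64_an

end

section

namespace Pool.Agent.MP_994d64_an

open Set Finset

lemma Upper_var {c : ℝ} (h1 : -2 ≤ c) (h2 : c ≤ 1 / 4) (k : ℕ) : ∀ x y : ℝ, x < y →
    x ∈ Set.Icc (-be c) (be c) → y ∈ Set.Icc (-be c) (be c) →
    eVariationOn (fun x : ℝ => x ^ 2 + c)^[k] (Set.Icc x y) ≤ ENNReal.ofReal
      (2 * be c * (1 + ∑ j ∈ range k, (gg c j (x, true) (y, false) : ℝ))) := by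
  have b0 := be_ge c
  have hm := mapsTo h1 h2
  induction k with
  | zero =>
    intro x y _ hx hy
    rw [Function.iterate_zero, eVariationOn_id_Icc]
    exact ENNReal.ofReal_le_ofReal (by simp; linarith [hx.1, hy.2])
  | succ k ih =>
    have up : ∀ x y : ℝ, x < y → x ∈ Set.Icc (-be c) (be c) → y ∈ Set.Icc (-be c) (be c) → 0 ≤ x →
        eVariationOn (fun x : ℝ => x ^ 2 + c)^[k + 1] (Set.Icc x y) ≤ ENNReal.ofReal (2 * be c *
          (1 + ∑ j ∈ range k, (gg c j (x ^ 2 + c, true) (y ^ 2 + c, false) : ℝ))) :=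
      fun x y hxy hx hy x0 => by
        rw [Function.iterate_succ]
        refine (eVariationOn.comp_le_of_monotoneOn _ (s := Set.Icc (x ^ 2 + c) (y ^ 2 + c)) _
          (fun a ha b _ hab => by nlinarith [ha.1]) fun a ha => ⟨by nlinarith [ha.1],
            by nlinarith [ha.1, ha.2]⟩).trans (ih _ _ (by nlinarith) (hm hx) (hm hy))
    have dn : ∀ x y : ℝ, x < y → x ∈ Set.Icc (-be c) (be c) → y ∈ Set.Icc (-be c) (be c) → y ≤ 0 →
        eVariationOn (fun x : ℝ => x ^ 2 + c)^[k + 1] (Set.Icc x y) ≤ ENNReal.ofReal (2 * be c *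
          (1 + ∑ j ∈ range k, (gg c j (y ^ 2 + c, true) (x ^ 2 + c, false) : ℝ))) :=
      fun x y hxy hx hy y0 => by
        rw [Function.iterate_succ]
        refine (eVariationOn.comp_le_of_antitoneOn _ (s := Set.Icc (y ^ 2 + c) (x ^ 2 + c)) _
          (fun a _ b hb hab => by nlinarith [hb.2]) fun a ha => ⟨by nlinarith [ha.2],
            by nlinarith [ha.1, ha.2]⟩).trans (ih _ _ (by nlinarith) (hm hy) (hm hx))
    intro x y hxy hx hy
    rw [sum_range_succ']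
    rcases le_or_gt 0 x with x0 | x0
    · have p : pos (x, true) = true := by
        simp only [pos, decide_eq_true_eq, and_true]; exact x0.lt_or_eq'
      have q : pos (y, false) = true := by simp [pos]; linarith
      simpa only [gg, F, p, q, if_true, Bool.true_eq_false, false_and, if_false, Nat.cast_zero,
        add_zero] using up x y hxy hx hy x0
    have p : pos (x, true) = false := by simp [pos, x0.le, x0.ne]
    rcases le_or_gt y 0 with y0 | y0
    · have q : pos (y, false) = false := by simp [pos, y0]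
      simpa only [gg, F, p, q, Bool.false_eq_true, and_false, if_false, Nat.cast_zero,
        add_zero, Bool.not_true, Bool.not_false] using dn x y hxy hx hy y0
    have q : pos (y, false) = true := by simp [pos, y0]
    have z : (0 : ℝ) ∈ Set.Icc (-be c) (be c) := ⟨by linarith, by linarith⟩
    have e := eVariationOn.Icc_add_Icc (fun x : ℝ => x ^ 2 + c)^[k + 1] (s := Set.univ) x0.le y0.le
      (Set.mem_univ _)
    simp only [Set.univ_inter] at e
    rw [← e]
    refine (add_le_add (dn x 0 x0 hx z le_rfl) (up 0 y y0 z hy le_rfl)).trans ?_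
    rw [← ENNReal.ofReal_add (by positivity) (by positivity)]
    refine ENNReal.ofReal_le_ofReal (le_of_eq ?_)
    simp only [gg, F, p, q, Bool.false_eq_true, if_false, if_true, and_self, Bool.not_true,
      Nat.cast_add, sum_add_distrib, Nat.cast_one, zero_pow two_ne_zero, zero_add]
    ring

lemma Upper_cover {f : ℝ → ℝ} {I : Set ℝ} {w : ℕ → ℝ → ℝ} {n : ℕ} {K ε : ℝ} (hε : 0 < ε)
    (h0 : ∀ k x, 0 ≤ w k x) (hK : ∀ x ∈ I, ∑ k ∈ range n, w k x ≤ K)
    (hw : ∀ k, ∀ x ∈ I, ∀ y ∈ I, x ≤ y → dist (f^[k] x) (f^[k] y) ≤ w k y - w k x)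
    {U : Set (ℝ × ℝ)} (hU : ∀ ⦃a b : ℝ⦄, dist a b < ε → (a, b) ∈ U) :
    Dynamics.coverMincard f I U n ≤ (⌊K / ε⌋₊ + 1 : ℕ) := by
  classical
  let g : ℝ → ℕ := fun x => ⌊(∑ k ∈ range n, w k x) / ε⌋₊
  have key : ∀ x ∈ I, ∀ y ∈ I, x ≤ y → g x = g y → ∀ k < n, dist (f^[k] x) (f^[k] y) < ε :=
    fun x hx y hy hxy e k hk => by
      have a := single_le_sum (f := fun k => w k y - w k x)
        (fun k _ => dist_nonneg.trans (hw k x hx y hy hxy)) (mem_range.2 hk)
      have b : (g x : ℝ) ≤ _ := Nat.floor_le (div_nonneg (sum_nonneg fun k _ => h0 k x) hε.le)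
      have d : _ < (g y : ℝ) + 1 := Nat.lt_floor_add_one _
      rw [le_div_iff₀ hε] at b
      rw [div_lt_iff₀ hε, ← e] at d
      rw [sum_sub_distrib] at a
      linarith [hw k x hx y hy hxy]
  have c : Dynamics.IsDynCoverOf f I U n
      ((range (⌊K / ε⌋₊ + 1)).image (Function.invFunOn g I) : Finset ℝ) := fun x hx => by
    have e : ∃ a ∈ I, g a = g x := ⟨x, hx, rfl⟩
    refine ⟨Function.invFunOn g I (g x), mem_coe.2 (mem_image_of_mem _ (mem_range.2
      (Nat.lt_succ_of_le (Nat.floor_mono (by gcongr; exact hK x hx))))),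
      Dynamics.mem_dynEntourage.2 fun k hk => hU ?_⟩
    rcases le_total x (Function.invFunOn g I (g x)) with h | h
    · exact key _ hx _ (Function.invFunOn_mem e) h (Function.invFunOn_eq e).symm k hk
    · rw [dist_comm]
      exact key _ (Function.invFunOn_mem e) _ hx h (Function.invFunOn_eq e) k hk
  refine c.coverMincard_le_card.trans ?_
  exact_mod_cast card_image_le.trans (card_range _).le

theorem ent_le {c : ℝ} (h1 : -2 ≤ c) (h2 : c ≤ 1 / 4) {r : ℝ} (hr0 : 0 < r) (hr1 : r < 1)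
    (hs : Summable fun k => (GG c k : ℝ) * r ^ k) : ent c ≤ ((-Real.log r : ℝ) : EReal) := by
  have b0 := be_ge c
  have ρ1 : 1 < r⁻¹ := (one_lt_inv₀ hr0).2 hr1
  set S := ∑' k, (GG c k : ℝ) * r ^ k
  have S0 : 0 ≤ S := tsum_nonneg fun k => by positivity
  have v : ∀ k, ∀ x ∈ Set.Icc (-be c) (be c), eVariationOn (fun x : ℝ => x ^ 2 + c)^[k]
      (Set.Icc (-be c) x) ≤ ENNReal.ofReal (2 * be c * (1 + S) * r⁻¹ ^ k) := fun k x hx => by
    refine (eVariationOn.mono _ (Set.Icc_subset_Icc_right hx.2)).trans ((Upper_var h1 h2 k _ _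
      (by linarith) ⟨le_rfl, by linarith⟩ ⟨by linarith, le_rfl⟩).trans
        (ENNReal.ofReal_le_ofReal ?_))
    have a : ∑ j ∈ range k, (GG c j : ℝ) ≤ S * r⁻¹ ^ k := by
      refine le_trans ?_ (mul_le_mul_of_nonneg_right
        (hs.sum_le_tsum (range k) fun k _ => by positivity) (by positivity))
      rw [sum_mul]
      refine sum_le_sum fun j hj => ?_
      rw [mul_assoc, inv_pow]
      refine le_mul_of_one_le_right (Nat.cast_nonneg _) ?_
      rw [← div_eq_mul_inv, one_le_div (by positivity)]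
      exact pow_le_pow_of_le_one hr0.le hr1.le (mem_range.1 hj).le
    have b : 1 ≤ r⁻¹ ^ k := one_le_pow₀ ρ1.le
    rw [mul_assoc _ (1 + S)]
    refine mul_le_mul_of_nonneg_left ?_ (by positivity)
    unfold GG at a
    linarith
  refine iSup₂_le fun U hU => ?_
  obtain ⟨ε, hε, hU⟩ := Metric.mem_uniformity_dist.1 hU
  set K := 2 * be c * (1 + S) / (r⁻¹ - 1) with hK
  have K0 : 0 ≤ K := div_nonneg (by positivity) (by linarith)
  have e : ((-Real.log r : ℝ) : EReal) = ENNReal.log (ENNReal.ofReal r⁻¹) := by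
    rw [ENNReal.log_ofReal_of_pos (by positivity), Real.log_inv]
  rw [e, ← ExpGrowth.expGrowthSup_pow]
  refine ExpGrowth.expGrowthSup_le_of_eventually_le (b := ENNReal.ofReal (K / ε + 1))
    ENNReal.ofReal_ne_top (Filter.Eventually.of_forall fun n => ?_)
  have := Upper_cover (f := fun x : ℝ => x ^ 2 + c) (I := Set.Icc (-be c) (be c)) (n := n)
    (w := fun k x => (eVariationOn (fun x : ℝ => x ^ 2 + c)^[k] (Set.Icc (-be c) x)).toReal)
    (K := K * r⁻¹ ^ n) hε (fun _ _ => ENNReal.toReal_nonneg) (fun x hx => by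
      refine (sum_le_sum fun k _ => ENNReal.toReal_le_of_le_ofReal (by positivity)
        (v k x hx)).trans ?_
      rw [← mul_sum, geom_sum_eq ρ1.ne', hK, div_mul_eq_mul_div, mul_div_assoc _ (r⁻¹ ^ n)]
      gcongr
      linarith) (fun k x hx y hy hxy => by
      have a := eVariationOn.Icc_add_Icc (fun x : ℝ => x ^ 2 + c)^[k] (s := Set.univ) hx.1 hxy
        (Set.mem_univ _)
      simp only [Set.univ_inter] at a
      have b := ne_top_of_le_ne_top ENNReal.ofReal_ne_top (v k y hy)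
      rw [← a] at b ⊢
      rw [ENNReal.toReal_add (ENNReal.add_ne_top.1 b).1 (ENNReal.add_ne_top.1 b).2,
        add_sub_cancel_left, dist_edist]
      exact ENNReal.toReal_mono (ENNReal.add_ne_top.1 b).2 (eVariationOn.edist_le _
        (Set.left_mem_Icc.2 hxy) (Set.right_mem_Icc.2 hxy))) hU
  refine (ENat.toENNReal_mono this).trans ?_
  rw [ENat.toENNReal_coe, ← ENNReal.ofReal_natCast, ← ENNReal.ofReal_pow (by positivity),
    ← ENNReal.ofReal_mul (by positivity)]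
  refine ENNReal.ofReal_le_ofReal ?_
  have a := Nat.floor_le (a := K * r⁻¹ ^ n / ε) (by positivity)
  have b : 1 ≤ r⁻¹ ^ n := one_le_pow₀ ρ1.le
  push_cast
  rw [add_mul, div_mul_eq_mul_div K ε]
  linarith

end Pool.Agent.MP_994d64_an

end

section

namespace Pool.Agent.MP_994d64_an

open Filter Topology

/-- There are `n` points between `P` and `Q` that are mapped to `0` at time `k`. -/
def LowerGood (c : ℝ) (k : ℕ) (P Q : ℝ × Bool) (n : ℕ) : Prop :=
  ∃ S : Finset ℝ, S.card = n ∧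
    ∀ p ∈ S, LE2 P (p, false) ∧ LE2 (p, true) Q ∧ (fun x : ℝ => x ^ 2 + c)^[k] p = 0

lemma Lower_up (c : ℝ) {a b : ℝ} (ha : 0 ≤ a) (hb : 0 ≤ b) (u v : Bool) :
    LE2 (a ^ 2 + c, u) (b ^ 2 + c, v) ↔ LE2 (a, u) (b, v) := by
  simp only [LE2, add_lt_add_iff_right, add_left_inj, sq_lt_sq₀ ha hb, sq_eq_sq₀ ha hb]

lemma Lower_dn (c : ℝ) {a b : ℝ} (ha : a ≤ 0) (hb : b ≤ 0) (u v : Bool) :
    LE2 (b ^ 2 + c, !v) (a ^ 2 + c, !u) ↔ LE2 (a, u) (b, v) := by
  rw [← neg_sq a, ← neg_sq b, Lower_up c (neg_nonneg.2 hb) (neg_nonneg.2 ha)]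
  cases u <;> cases v <;> simp [LE2, eq_comm]

lemma Lower_le {P Q : ℝ × Bool} (h : LE2 P Q) : P.1 ≤ Q.1 := h.elim le_of_lt fun h => h.1.le

lemma Lower_lt {a b : ℝ} (h : LE2 (a, true) (b, false)) : a < b := by simpa [LE2] using h

lemma Lower_pos {P : ℝ × Bool} : pos P = true ↔ LE2 (0, true) P := by
  simp [pos, LE2, eq_comm (a := (0 : ℝ))]

lemma Lower_neg {P : ℝ × Bool} : ¬ pos P = true ↔ LE2 P (0, false) := by
  obtain ⟨a, u⟩ := P
  rcases lt_trichotomy a 0 with h | h | h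
  · simp [pos, LE2, h, h.ne, h.not_gt]
  · simp [pos, LE2, h]
  · simp [pos, LE2, h, h.ne', h.not_gt]

lemma Lower_right {c : ℝ} {k n : ℕ} {a b : ℝ} (ha : 0 ≤ a) (hb : 0 ≤ b) {u v : Bool}
    (h : LowerGood c k (a ^ 2 + c, u) (b ^ 2 + c, v) n) : LowerGood c (k + 1) (a, u) (b, v) n := by
  obtain ⟨S, hS, h⟩ := h
  have e : ∀ q ∈ S, √(q - c) ^ 2 + c = q := fun q hq => by
    have := Lower_le (h q hq).1
    rw [Real.sq_sqrt (by nlinarith), sub_add_cancel]
  refine ⟨S.image fun q => √(q - c), ?_, fun p hp => ?_⟩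
  · rw [Finset.card_image_of_injOn fun q hq q' hq' (h' : √(q - c) = √(q' - c)) => by
      rw [← e q hq, h', e q' hq'], hS]
  · obtain ⟨q, hq, rfl⟩ := Finset.mem_image.1 hp
    rw [← Lower_up c ha (Real.sqrt_nonneg _), ← Lower_up c (Real.sqrt_nonneg _) hb,
      Function.iterate_succ_apply, e q hq]
    exact h q hq

lemma Lower_left {c : ℝ} {k n : ℕ} {a b : ℝ} (ha : a ≤ 0) (hb : b ≤ 0) {u v : Bool}
    (h : LowerGood c k (b ^ 2 + c, !v) (a ^ 2 + c, !u) n) :
    LowerGood c (k + 1) (a, u) (b, v) n := by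
  obtain ⟨S, hS, h⟩ := h
  have e : ∀ q ∈ S, (-√(q - c)) ^ 2 + c = q := fun q hq => by
    have := Lower_le (h q hq).1
    rw [neg_sq, Real.sq_sqrt (by nlinarith), sub_add_cancel]
  refine ⟨S.image fun q => -√(q - c), ?_, fun p hp => ?_⟩
  · rw [Finset.card_image_of_injOn fun q hq q' hq' (h' : -√(q - c) = -√(q' - c)) => by
      rw [← e q hq, h', e q' hq'], hS]
  · obtain ⟨q, hq, rfl⟩ := Finset.mem_image.1 hp
    have h0 : -√(q - c) ≤ 0 := neg_nonpos.2 (Real.sqrt_nonneg _)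
    rw [← Lower_dn c ha h0, ← Lower_dn c h0 hb, Function.iterate_succ_apply, e q hq]
    exact ⟨(h q hq).2.1, (h q hq).1, (h q hq).2.2⟩

lemma Lower_good (c : ℝ) (k : ℕ) : ∀ P Q, LE2 P Q → LowerGood c k P Q (gg c k P Q) := by
  induction k with
  | zero =>
    intro P Q _
    rw [gg]
    split_ifs with h
    · refine ⟨{0}, rfl, fun p hp => ?_⟩
      rw [Finset.mem_singleton.1 hp]
      exact ⟨Lower_neg.1 (by simp [h.1]), Lower_pos.1 h.2, rfl⟩
    · exact ⟨∅, rfl, by simp⟩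
  | succ k ih =>
    rintro ⟨a, u⟩ ⟨b, v⟩ h
    rw [gg]
    by_cases hP : pos (a, u) = true
    · have ha : 0 ≤ a := Lower_le (Lower_pos.1 hP)
      have hb : 0 ≤ b := ha.trans (Lower_le h)
      have hQ : pos (b, v) = true := by
        rw [Lower_pos] at hP ⊢
        rcases hP with h1 | h1 <;> rcases h with h2 | h2
        · exact Or.inl (h1.trans h2)
        · exact Or.inl (h1.trans_eq h2.1)
        · exact Or.inl (h1.1.trans_lt h2)
        · exact Or.inr ⟨h1.1.trans h2.1, fun h => h2.2 (h1.2 h)⟩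
      simp only [F, hP, hQ, if_true]
      exact Lower_right ha hb (ih _ _ ((Lower_up c ha hb u v).2 h))
    · have ha : a ≤ 0 := Lower_le (Lower_neg.1 hP)
      by_cases hQ : pos (b, v) = true
      · have hb : 0 ≤ b := Lower_le (Lower_pos.1 hQ)
        have e : c = 0 ^ 2 + c := by simp
        simp only [F, hP, hQ, if_true, Bool.false_eq_true, if_false]
        have h1 := ih _ _ ((Lower_dn c ha le_rfl u false).2 (Lower_neg.1 hP))
        have h2 := ih _ _ ((Lower_up c le_rfl hb true v).2 (Lower_pos.1 hQ))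
        obtain ⟨S, hS, h1⟩ := Lower_left ha le_rfl h1
        obtain ⟨T, hT, h2⟩ := Lower_right le_rfl hb h2
        rw [← e] at hS hT
        refine ⟨S.disjUnion T (Finset.disjoint_left.2 fun p hp hp' =>
          (Lower_lt (h1 p hp).2.1).not_gt (Lower_lt (h2 p hp').1)), ?_, fun p hp => ?_⟩
        · rw [Finset.card_disjUnion, hS, hT]
          rfl
        · rcases Finset.mem_disjUnion.1 hp with hp | hp
          · exact ⟨(h1 p hp).1, Or.inl ((Lower_lt (h1 p hp).2.1).trans_le hb), (h1 p hp).2.2⟩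
          · exact ⟨Or.inl (ha.trans_lt (Lower_lt (h2 p hp).1)), (h2 p hp).2.1, (h2 p hp).2.2⟩
      · have hb : b ≤ 0 := Lower_le (Lower_neg.1 hQ)
        simp only [F, hP, hQ, Bool.false_eq_true, if_false]
        exact Lower_left ha hb (ih _ _ ((Lower_dn c ha hb u v).2 h))

lemma Lower_finite (c : ℝ) (j : ℕ) : {p : ℝ | (fun x : ℝ => x ^ 2 + c)^[j] p = 0}.Finite := by
  induction j with
  | zero => simp
  | succ j ih =>
    refine ((ih.image fun q => √(q - c)).union (ih.image fun q => -√(q - c))).subset fun p hp => ?_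
    rcases le_total 0 p with h | h
    · exact Or.inl ⟨p ^ 2 + c, hp, by simp [Real.sqrt_sq h]⟩
    · exact Or.inr ⟨p ^ 2 + c, hp, by simp [Real.sqrt_sq_eq_abs, abs_of_nonpos h]⟩

lemma Lower_rolle (c : ℝ) {a b : ℝ} (hab : a < b) (m : ℕ)
    (h : (fun x : ℝ => x ^ 2 + c)^[m] a = (fun x : ℝ => x ^ 2 + c)^[m] b) :
    ∃ z ∈ Set.Ioo a b, ∃ j < m, (fun x : ℝ => x ^ 2 + c)^[j] z = 0 := by
  induction m with
  | zero => exact absurd h hab.ne
  | succ m ih =>
    by_cases h1 : (fun x : ℝ => x ^ 2 + c)^[m] a = (fun x : ℝ => x ^ 2 + c)^[m] b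
    · obtain ⟨z, hz, j, hj, e⟩ := ih h1
      exact ⟨z, hz, j, by omega, e⟩
    · have hc : Continuous (fun x : ℝ => x ^ 2 + c)^[m] := Continuous.iterate (by fun_prop) m
      rw [Function.iterate_succ_apply', Function.iterate_succ_apply', add_left_inj,
        sq_eq_sq_iff_eq_or_eq_neg] at h
      have h2 := h.resolve_left h1
      rcases lt_or_gt_of_ne h1 with h3 | h3
      · obtain ⟨z, hz, e⟩ := intermediate_value_Ioo hab.le hc.continuousOn
          (show (0 : ℝ) ∈ _ from ⟨by linarith, by linarith⟩)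
        exact ⟨z, hz, m, by omega, e⟩
      · obtain ⟨z, hz, e⟩ := intermediate_value_Ioo' hab.le hc.continuousOn
          (show (0 : ℝ) ∈ _ from ⟨by linarith, by linarith⟩)
        exact ⟨z, hz, m, by omega, e⟩

lemma Lower_two (c : ℝ) (m : ℕ) : ∃ ε > 0, ∀ j ≤ m, ∀ (q : ℝ) (B : Finset ℝ),
    (∀ x ∈ B, (fun x : ℝ => x ^ 2 + c)^[j] x = q) → (∀ x ∈ B, ∀ y ∈ B, dist x y < ε) →
      B.card ≤ 2 := by
  have hZ : (⋃ j ∈ Set.Iio m, {p : ℝ | (fun x : ℝ => x ^ 2 + c)^[j] p = 0}).Finite :=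
    (Set.finite_Iio m).biUnion fun j _ => Lower_finite c j
  have h : ∀ᶠ ε in 𝓝[>] (0 : ℝ), ∀ x ∈ ⋃ j ∈ Set.Iio m, {p : ℝ | (fun x : ℝ => x ^ 2 + c)^[j] p = 0},
      ∀ y ∈ ⋃ j ∈ Set.Iio m, {p : ℝ | (fun x : ℝ => x ^ 2 + c)^[j] p = 0}, x < y → ε ≤ y - x :=
    (eventually_all_finite hZ).2 fun x _ => (eventually_all_finite hZ).2 fun y _ => by
      by_cases hxy : x < y
      · filter_upwards [Ioc_mem_nhdsGT (sub_pos.2 hxy)] with ε hε _ using hε.2
      · exact Eventually.of_forall fun _ h => absurd h hxy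
  obtain ⟨ε, h1, h2⟩ := (h.and self_mem_nhdsWithin).exists
  refine ⟨ε, h2, fun j hj q B hq hB => ?_⟩
  by_contra hc
  have h3 : 3 ≤ B.card := by omega
  have hm := B.orderEmbOfCardLe_mem h3
  have hs := (B.orderEmbOfCardLe h3).strictMono
  obtain ⟨z, hz, i, hi, e⟩ := Lower_rolle c (hs (show (0 : Fin 3) < 1 by decide)) j
    ((hq _ (hm 0)).trans (hq _ (hm 1)).symm)
  obtain ⟨z', hz', i', hi', e'⟩ := Lower_rolle c (hs (show (1 : Fin 3) < 2 by decide)) j
    ((hq _ (hm 1)).trans (hq _ (hm 2)).symm)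
  have h4 := h1 z (Set.mem_biUnion (show i ∈ Set.Iio m from hi.trans_le hj) e) z'
    (Set.mem_biUnion (show i' ∈ Set.Iio m from hi'.trans_le hj) e') (hz.2.trans hz'.1)
  have h5 := (abs_lt.1 ((Real.dist_eq _ _).symm.trans_lt (hB _ (hm 2) _ (hm 0)))).2
  linarith [hz.1, hz'.2]

lemma Lower_pow {f : ℝ → ℝ} {m : ℕ} {ε : ℝ} (h : ∀ j ≤ m, ∀ (q : ℝ) (B : Finset ℝ),
    (∀ x ∈ B, f^[j] x = q) → (∀ x ∈ B, ∀ y ∈ B, dist x y < ε) → B.card ≤ 2) (q : ℝ) (n : ℕ) :
    ∀ K ≤ n * m, ∀ B : Finset ℝ, (∀ x ∈ B, f^[K] x = q) →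
      (∀ x ∈ B, ∀ y ∈ B, ∀ k < K, dist (f^[k] x) (f^[k] y) < ε) → B.card ≤ 2 ^ n := by
  have h0 : ∀ B : Finset ℝ, (∀ x ∈ B, f^[0] x = q) → B.card ≤ 1 := fun B hq =>
    Finset.card_le_one.2 fun x hx y hy => (hq x hx).trans (hq y hy).symm
  induction n with
  | zero =>
    intro K hK B hq _
    obtain rfl : K = 0 := by omega
    exact h0 B hq
  | succ n ih =>
    intro K hK B hq hB
    rcases Nat.eq_zero_or_pos K with rfl | hK0
    · exact (h0 B hq).trans Nat.one_le_two_pow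
    obtain ⟨j, L, rfl, hj, hL⟩ : ∃ j L, K = L + j ∧ j ≤ m ∧ L ≤ n * m := by
      rw [add_mul, one_mul] at hK
      exact ⟨min K m, K - min K m, by omega, by omega, by omega⟩
    refine (Finset.card_le_mul_card_image (f := f^[j]) B 2 fun b _ => h j hj b _
      (fun x hx => (Finset.mem_filter.1 hx).2) fun x hx y hy =>
        hB x (Finset.mem_filter.1 hx).1 y (Finset.mem_filter.1 hy).1 0 hK0).trans ?_
    rw [pow_succ']
    refine Nat.mul_le_mul_left 2 (ih L hL _ (fun x hx => ?_) fun x hx y hy k hk => ?_)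
    · obtain ⟨x', hx', rfl⟩ := Finset.mem_image.1 hx
      rw [← Function.iterate_add_apply, hq x' hx']
    · obtain ⟨x', hx', rfl⟩ := Finset.mem_image.1 hx
      obtain ⟨y', hy', rfl⟩ := Finset.mem_image.1 hy
      rw [← Function.iterate_add_apply, ← Function.iterate_add_apply]
      exact hB x' hx' y' hy' _ (by omega)

theorem summable_of_ent_lt {c : ℝ} (h1 : -2 ≤ c) (h2 : c ≤ 1 / 4) {t : ℝ} (ht0 : 0 < t)
    (h : ent c < ((-Real.log t : ℝ) : EReal)) : Summable fun k => (GG c k : ℝ) * t ^ k := by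
  classical
  obtain ⟨a, ha, ha'⟩ := EReal.lt_iff_exists_real_btwn.1 h
  have hδ : 0 < -Real.log t - a := sub_pos.2 (EReal.coe_lt_coe_iff.1 ha')
  have hl : 0 < Real.log 2 := Real.log_pos one_lt_two
  obtain ⟨m, hm⟩ := exists_nat_gt (Real.log 2 / (-Real.log t - a))
  have hm0 : (0 : ℝ) < m := (div_pos hl hδ).trans hm
  have hm1 : 0 < m := by exact_mod_cast hm0
  obtain ⟨ε, hε, h3⟩ := Lower_two c m
  have hU := Metric.dist_mem_uniformity (α := ℝ) (half_pos hε)
  have h4 := ExpGrowth.eventually_le_exp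
    ((Dynamics.coverEntropyEntourage_le_coverEntropy _ _ hU).trans_lt ha)
  have hρ : Real.exp (Real.log 2 / m + a + Real.log t) < 1 := by
    rw [div_lt_iff₀ hδ, mul_comm, ← div_lt_iff₀ hm0] at hm
    exact Real.exp_lt_one_iff.2 (by linarith)
  refine ((summable_geometric_of_lt_one (Real.exp_pos _).le hρ).mul_left
    2).of_norm_bounded_eventually_nat ?_
  filter_upwards [h4] with K hK
  obtain ⟨s, hs, e⟩ := (Dynamics.coverMincard_finite_iff _ _ _ K).1
    (Dynamics.coverMincard_finite_of_isCompact_invariant isCompact_Icc (mapsTo h1 h2) hU K)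
  have h5 : (s.card : ℝ) ≤ Real.exp (a * K) := by
    rw [← e, ← EReal.coe_natCast, ← EReal.coe_mul, EReal.exp_coe, ENat.toENNReal_coe,
      ← ENNReal.ofReal_natCast] at hK
    exact (ENNReal.ofReal_le_ofReal_iff (Real.exp_pos _).le).1 hK
  obtain ⟨S, hS, h6⟩ := Lower_good c K (-be c, true) (be c, false)
    (Or.inl (by linarith [be_ge c] : -be c < be c))
  choose! g hg hg' using hs
  have hI : ∀ p ∈ S, p ∈ Set.Icc (-be c) (be c) := fun p hp =>
    ⟨Lower_le (h6 p hp).1, Lower_le (h6 p hp).2.1⟩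
  have h7 : S.card ≤ 2 ^ (K / m + 1) * s.card :=
    Finset.card_le_mul_card_image_of_maps_to (f := g) (fun p hp => hg (hI p hp)) _ fun b _ =>
      Lower_pow h3 0 _ K (by rw [mul_comm]; exact (Nat.lt_mul_div_succ K hm1).le) _
        (fun x hx => (h6 x (Finset.mem_filter.1 hx).1).2.2) fun x hx y hy k hk => by
          obtain ⟨hx, e1⟩ := Finset.mem_filter.1 hx
          obtain ⟨hy, e2⟩ := Finset.mem_filter.1 hy
          have d1 := Dynamics.mem_dynEntourage.1 (hg' (hI x hx)) k hk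
          have d2 := Dynamics.mem_dynEntourage.1 (hg' (hI y hy)) k hk
          rw [e1] at d1
          rw [e2] at d2
          exact (dist_triangle_right _ _ _).trans_lt ((add_lt_add d1 d2).trans_eq (add_halves ε))
  have h8 : (2 : ℝ) ^ (K / m) ≤ Real.exp (Real.log 2 / m * K) := by
    rw [← Real.exp_log two_pos, ← Real.exp_nat_mul, Real.log_exp]
    refine Real.exp_le_exp.2 ((mul_le_mul_of_nonneg_right Nat.cast_div_le hl.le).trans_eq ?_)
    ring
  have h9 : (GG c K : ℝ) ≤ 2 * Real.exp (Real.log 2 / m * K) * Real.exp (a * K) := by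
    rw [GG, ← hS]
    refine le_trans (show (S.card : ℝ) ≤ 2 ^ (K / m + 1) * s.card by exact_mod_cast h7)
      (mul_le_mul ?_ h5 (Nat.cast_nonneg _) (by positivity))
    rw [pow_succ']
    gcongr
  rw [Real.norm_of_nonneg (by positivity)]
  refine (mul_le_mul_of_nonneg_right h9 (by positivity)).trans_eq ?_
  rw [Real.exp_add, Real.exp_add, Real.exp_log ht0, mul_pow, mul_pow, ← Real.exp_nat_mul,
    ← Real.exp_nat_mul, mul_comm (K : ℝ), mul_comm (K : ℝ)]
  ring

end Pool.Agent.MP_994d64_an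

end

section

namespace Pool.Agent.MP_994d64_an

lemma Examples_abs_eps (P : ℝ × Bool) : |(eps P : ℝ)| = 1 := by
  unfold eps; split_ifs <;> simp

theorem abs_th (c : ℝ) (n : ℕ) (P : ℝ × Bool) : |(th c n P : ℝ)| = 1 := by
  induction n generalizing P with
  | zero => exact Examples_abs_eps P
  | succ n ih =>
    simp only [th, Int.cast_mul, abs_mul, Examples_abs_eps, ih, one_mul]

lemma Examples_summable (c : ℝ) (P : ℝ × Bool) {t : ℝ} (ht0 : 0 ≤ t) (ht1 : t < 1) :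
    Summable fun n => (th c n P : ℝ) * t ^ n := by
  refine Summable.of_norm_bounded (summable_geometric_of_lt_one ht0 ht1) fun n => ?_
  rw [Real.norm_eq_abs, abs_mul, abs_th, one_mul, abs_of_nonneg (pow_nonneg ht0 n)]

theorem Th_eq (c : ℝ) (P : ℝ × Bool) {t : ℝ} (ht0 : 0 ≤ t) (ht1 : t < 1) :
    Th c P t = eps P * (1 + t * Th c (F c P) t) := by
  unfold Th
  rw [(Examples_summable c P ht0 ht1).tsum_eq_zero_add, mul_add, ← tsum_mul_left, ← tsum_mul_left]
  congr 1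
  refine tsum_congr fun n => ?_
  simp only [th, Int.cast_mul]
  ring

theorem DD_eq (c : ℝ) {t : ℝ} (ht0 : 0 ≤ t) (ht1 : t < 1) :
    DD c t = 1 + t * Th c (c, true) t := by
  have h1 : Summable fun n => (dd c (n + 1) : ℝ) * t ^ (n + 1) := by
    refine ((Examples_summable c (c, true) ht0 ht1).mul_left t).congr fun n => ?_
    simp only [dd]; ring
  have h2 : Summable fun n => (dd c n : ℝ) * t ^ n := (summable_nat_add_iff 1).1 h1
  unfold DD Th
  rw [h2.tsum_eq_zero_add, ← tsum_mul_left]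
  congr 1
  · simp [dd]
  · refine tsum_congr fun n => ?_
    simp only [dd]; ring

theorem PCF.mem {c : ℝ} (h : PCF c) : -2 ≤ c ∧ c ≤ 1 / 4 := by
  constructor
  · by_contra hc
    rw [not_le] at hc
    let b : ℕ → ℝ := fun n => (fun x : ℝ => x ^ 2 + c)^[n + 1 + 1] 0
    have hs : ∀ n, b (n + 1) = b n ^ 2 + c := fun n => Function.iterate_succ_apply' _ _ _
    have hb : ∀ n, -c ≤ b n := by
      intro n
      induction n with
      | zero =>
        have : b 0 = (0 ^ 2 + c) ^ 2 + c := rfl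
        rw [this]; nlinarith
      | succ n ih => rw [hs]; nlinarith
    have hm : StrictMono b := strictMono_nat_of_lt_succ fun n => by
      have := hb n
      rw [hs]; nlinarith
    refine Set.infinite_range_of_injective hm.injective (h.subset ?_)
    rintro _ ⟨n, rfl⟩
    exact ⟨n + 1, rfl⟩
  · by_contra hc
    rw [not_le] at hc
    have hm : StrictMono fun n : ℕ => (fun x : ℝ => x ^ 2 + c)^[n + 1] 0 :=
      strictMono_nat_of_lt_succ fun n => by
        rw [Function.iterate_succ_apply' _ (n + 1)]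
        nlinarith [sq_nonneg ((fun x : ℝ => x ^ 2 + c)^[n + 1] 0 - 1 / 2)]
    exact Set.infinite_range_of_injective hm.injective h

lemma Examples_pcf {c : ℝ} {S : Set ℝ} (hS : S.Finite) (hc : c ∈ S)
    (hm : ∀ x ∈ S, x ^ 2 + c ∈ S) : PCF c := by
  refine hS.subset ?_
  rintro _ ⟨n, rfl⟩
  induction n with
  | zero => simpa using hc
  | succ n ih =>
    show (fun x : ℝ => x ^ 2 + c)^[n + 1 + 1] 0 ∈ S
    rw [Function.iterate_succ_apply']
    exact hm _ ih

lemma Examples_neg (c : ℝ) {x y : ℝ} (b : Bool) (hx : x < 0) (hy : x ^ 2 + c = y) {t : ℝ}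
    (ht0 : 0 ≤ t) (ht1 : t < 1) : Th c (x, b) t = -(1 + t * Th c (y, !b) t) := by
  have hp : pos (x, b) = false := by
    unfold pos; simp [hx.ne, hx.le]
  rw [Th_eq c _ ht0 ht1]
  simp [eps, F, hp, hy]

lemma Examples_pos (c : ℝ) {x y : ℝ} (b : Bool) (hx : 0 < x) (hy : x ^ 2 + c = y) {t : ℝ}
    (ht0 : 0 ≤ t) (ht1 : t < 1) : Th c (x, b) t = 1 + t * Th c (y, b) t := by
  have hp : pos (x, b) = true := by
    unfold pos; simp [hx]
  rw [Th_eq c _ ht0 ht1]
  simp [eps, F, hp, hy]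

lemma Examples_zero_true (c : ℝ) {t : ℝ} (ht0 : 0 ≤ t) (ht1 : t < 1) :
    Th c (0, true) t = 1 + t * Th c (c, true) t := by
  have hp : pos (0, true) = true := by
    unfold pos; simp
  rw [Th_eq c _ ht0 ht1]
  simp [eps, F, hp]

lemma Examples_zero_false (c : ℝ) {t : ℝ} (ht0 : 0 ≤ t) (ht1 : t < 1) :
    Th c (0, false) t = -(1 + t * Th c (c, true) t) := by
  have hp : pos (0, false) = false := by
    unfold pos; simp
  rw [Th_eq c _ ht0 ht1]
  simp [eps, F, hp]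

theorem ex_one : ∃ c, PCF c ∧ ∀ t, 0 ≤ t → t < 1 → DD c t = 1 / (1 - t) := by
  refine ⟨0, Examples_pcf (Set.finite_singleton 0) rfl (by simp), fun t ht0 ht1 => ?_⟩
  have h := Examples_zero_true 0 ht0 ht1
  have h1 : 1 - t ≠ 0 := by linarith
  rw [DD_eq 0 ht0 ht1, eq_div_iff h1]
  linear_combination t * h

theorem ex_two : ∃ c, PCF c ∧ ∀ t, 0 ≤ t → t < 1 → DD c t = (1 - 2 * t) / (1 - t) := by
  refine ⟨-2, Examples_pcf (S := {-2, 2}) (Set.toFinite _) (by simp) ?_, fun t ht0 ht1 => ?_⟩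
  · rintro x (rfl | rfl) <;> right <;> norm_num
  have hA := Examples_neg (-2) (x := -2) (y := 2) true (by norm_num) (by norm_num) ht0 ht1
  have hB := Examples_pos (-2) (x := 2) (y := 2) false (by norm_num) (by norm_num) ht0 ht1
  simp only [Bool.not_true] at hA
  have h1 : 1 - t ≠ 0 := by linarith
  rw [DD_eq _ ht0 ht1, eq_div_iff h1, hA]
  linear_combination (-t ^ 2) * hB

theorem ex_gold : ∃ c, PCF c ∧ ∀ t, 0 ≤ t → t < 1 → DD c t = (1 - t - t ^ 2) / (1 - t ^ 3) := by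
  obtain ⟨c, hc, hr⟩ : ∃ c ∈ Set.Icc (-2 : ℝ) (-3 / 2), c ^ 3 + 2 * c ^ 2 + c + 1 = 0 :=
    intermediate_value_Icc (f := fun c : ℝ => c ^ 3 + 2 * c ^ 2 + c + 1) (by norm_num)
      (by fun_prop) ⟨by norm_num, by norm_num⟩
  have hc0 : c < 0 := by linarith [hc.2]
  have hu : 0 < c ^ 2 + c := by nlinarith [hc.2]
  have hz : (c ^ 2 + c) ^ 2 + c = 0 := by linear_combination c * hr
  refine ⟨c, Examples_pcf (S := {c, c ^ 2 + c, 0}) (Set.toFinite _) (by simp) ?_,
    fun t ht0 ht1 => ?_⟩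
  · rintro x (rfl | rfl | rfl)
    · simp
    · simp [hz]
    · simp
  have hA := Examples_neg c true hc0 rfl ht0 ht1
  have hB := Examples_pos c false hu hz ht0 ht1
  have hC := Examples_zero_false c ht0 ht1
  simp only [Bool.not_true] at hA
  have h1 : 1 - t ^ 3 ≠ 0 := by
    have := pow_lt_one₀ ht0 ht1 (n := 3) (by norm_num)
    linarith
  rw [DD_eq _ ht0 ht1, eq_div_iff h1]
  linear_combination t * hA - t ^ 2 * hB - t ^ 3 * hC

theorem ex_sqrt : ∃ c, PCF c ∧ ∀ t, 0 ≤ t → t < 1 → DD c t = (1 - 2 * t ^ 2) / (1 + t) := by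
  obtain ⟨c, hc, hr⟩ : ∃ c ∈ Set.Icc (-2 : ℝ) (-3 / 2), c ^ 3 + 2 * c ^ 2 + 2 * c + 2 = 0 :=
    intermediate_value_Icc (f := fun c : ℝ => c ^ 3 + 2 * c ^ 2 + 2 * c + 2) (by norm_num)
      (by fun_prop) ⟨by norm_num, by norm_num⟩
  have hc0 : c < 0 := by linarith [hc.2]
  have hu : 0 < c ^ 2 + c := by nlinarith [hc.2]
  have hz : (c ^ 2 + c) ^ 2 + c = -(c ^ 2 + c) := by linear_combination c * hr
  have hz' : (-(c ^ 2 + c)) ^ 2 + c = -(c ^ 2 + c) := by linear_combination c * hr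
  have hal : -(c ^ 2 + c) < 0 := by linarith
  refine ⟨c, Examples_pcf (S := {c, c ^ 2 + c, -(c ^ 2 + c)}) (Set.toFinite _) (by simp) ?_,
    fun t ht0 ht1 => ?_⟩
  · rintro x (rfl | rfl | rfl)
    · right; left; rfl
    · right; right; exact hz
    · right; right; exact hz'
  have hA := Examples_neg c true hc0 rfl ht0 ht1
  have hB := Examples_pos c false hu hz ht0 ht1
  have hX := Examples_neg c false hal hz' ht0 ht1
  have hY := Examples_neg c true hal hz' ht0 ht1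
  simp only [Bool.not_true, Bool.not_false] at hA hX hY
  have h1 : 1 + t ≠ 0 := by linarith
  have h2 : 1 - t ≠ 0 := by linarith
  have hX' : (1 + t) * Th c (-(c ^ 2 + c), false) t = -1 := by
    apply mul_left_cancel₀ h2
    linear_combination hX - t * hY
  rw [DD_eq _ ht0 ht1, eq_div_iff h1, hA, hB]
  linear_combination (-t ^ 3) * hX'

end Pool.Agent.MP_994d64_an

end

section

namespace Pool.Agent.MP_994d64_an

open Finset Filter Topology

lemma abs_dd (c : ℝ) (n : ℕ) : |(dd c n : ℝ)| ≤ 1 := by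
  cases n with
  | zero => simp [dd]
  | succ n => exact (abs_th c n _).le

lemma DD_cont (c : ℝ) {r : ℝ} (hr : r < 1) : ContinuousOn (DD c) (Set.Icc 0 r) :=
  series_contOn _ (abs_dd c) hr

lemma Th_cont (c : ℝ) (P : ℝ × Bool) {r : ℝ} (hr : r < 1) : ContinuousOn (Th c P) (Set.Icc 0 r) :=
  series_contOn _ (fun n => (abs_th c n P).le) hr

lemma summ_th (c : ℝ) (P : ℝ × Bool) {t : ℝ} (h0 : 0 ≤ t) (h1 : t < 1) :
    Summable fun n => (th c n P : ℝ) * t ^ n := by
  refine Summable.of_norm_bounded (summable_geometric_of_lt_one h0 h1) fun n => ?_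
  rw [Real.norm_eq_abs, abs_mul, abs_th, one_mul, abs_of_nonneg (pow_nonneg h0 n)]

lemma abs_Th (c : ℝ) (P : ℝ × Bool) {t : ℝ} (h0 : 0 ≤ t) (h1 : t < 1) :
    |Th c P t| ≤ (1 - t)⁻¹ := by
  rw [← tsum_geometric_of_lt_one h0 h1, ← Real.norm_eq_abs]
  refine tsum_of_norm_bounded (summable_geometric_of_lt_one h0 h1).hasSum fun n => ?_
  rw [Real.norm_eq_abs, abs_mul, abs_th, one_mul, abs_of_nonneg (pow_nonneg h0 n)]

lemma DD_pos_half (c : ℝ) {t : ℝ} (h0 : 0 ≤ t) (h1 : t < 1 / 2) : 0 < DD c t := by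
  have h2 : t < 1 := by linarith
  rw [DD_eq c h0 h2]
  have h3 := (abs_le.1 (abs_Th c (c, true) h0 h2)).1
  have h4 : t * (1 - t)⁻¹ < 1 := by
    rw [← div_eq_mul_inv, div_lt_one (by linarith)]; linarith
  nlinarith

/-- The first zero of the kneading determinant. -/
lemma exists_t0 (c : ℝ) : ∃ t0 : ℝ, 1 / 2 ≤ t0 ∧ t0 ≤ 1 ∧ (∀ t, 0 ≤ t → t < t0 → 0 < DD c t) ∧
    (t0 < 1 → DD c t0 = 0) := by
  by_cases h : ∀ t, 0 ≤ t → t < 1 → 0 < DD c t
  · exact ⟨1, by norm_num, le_rfl, h, fun h => absurd h (lt_irrefl _)⟩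
  push Not at h
  obtain ⟨s, hs0, hs1, hs⟩ := h
  have hc := DD_cont c hs1
  have hcl : IsClosed (Set.Icc 0 s ∩ DD c ⁻¹' Set.Iic 0) :=
    hc.preimage_isClosed_of_isClosed isClosed_Icc isClosed_Iic
  have hcomp : IsCompact (Set.Icc 0 s ∩ DD c ⁻¹' Set.Iic 0) :=
    isCompact_Icc.of_isClosed_subset hcl Set.inter_subset_left
  obtain ⟨t0, ht0, hmin⟩ := hcomp.exists_isLeast ⟨s, ⟨hs0, le_rfl⟩, hs⟩
  have hpos : ∀ t, 0 ≤ t → t < t0 → 0 < DD c t := fun t h0 h1 => by
    by_contra hn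
    exact absurd (hmin ⟨⟨h0, h1.le.trans ht0.1.2⟩, not_lt.1 hn⟩) (not_le.2 h1)
  have hh : 1 / 2 ≤ t0 := by
    by_contra hn
    exact absurd (DD_pos_half c ht0.1.1 (not_le.1 hn)) (not_lt.2 ht0.2)
  refine ⟨t0, hh, ht0.1.2.trans hs1.le, hpos, fun _ => ?_⟩
  have hsub : Set.Icc 0 t0 ⊆ Set.Icc 0 s := Set.Icc_subset_Icc le_rfl ht0.1.2
  obtain ⟨u, hu, hu0⟩ := intermediate_value_Icc' ht0.1.1 (hc.mono hsub)
    (show (0 : ℝ) ∈ Set.Icc (DD c t0) (DD c 0) from ⟨ht0.2, (DD_pos_half c le_rfl (by norm_num)).le⟩)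
  rcases hu.2.lt_or_eq with h | h
  · exact absurd hu0 (hpos u hu.1 h).ne'
  · rw [← h]; exact hu0

lemma ent_eq {c : ℝ} (h1 : -2 ≤ c) (h2 : c ≤ 1 / 4) {t0 : ℝ} (ht : 0 < t0) (ht1 : t0 ≤ 1)
    (hpos : ∀ t, 0 ≤ t → t < t0 → 0 < DD c t) (hz : t0 < 1 → DD c t0 = 0) :
    ent c = ((-Real.log t0 : ℝ) : EReal) := by
  apply le_antisymm
  · have hT : Tendsto (fun r : ℝ => ((-Real.log r : ℝ) : EReal)) (𝓝[<] t0)
        (𝓝 ((-Real.log t0 : ℝ) : EReal)) :=
      (continuous_coe_real_ereal.tendsto _).comp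
        ((Real.continuousAt_log ht.ne').neg.tendsto.mono_left nhdsWithin_le_nhds)
    refine ge_of_tendsto hT ?_
    filter_upwards [Ioo_mem_nhdsLT ht] with r hr
    have hr1 : r < 1 := hr.2.trans_le ht1
    refine ent_le h1 h2 hr.1 hr1 (prings _ (fun n => (dd c n : ℝ)) (fun k => Nat.cast_nonneg _)
      (abs_dd c) (by simp [dd]) (fun n => ?_) hr.1.le hr1 fun t h => hpos t h.1 (h.2.trans_lt hr.2))
    rw [ident_GG h2]; simp
  · rcases ht1.lt_or_eq with h | h
    · by_contra hn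
      have hs := summable_of_ent_lt h1 h2 ht (not_le.1 hn)
      have hm := series_mul _ (fun n => (dd c n : ℝ)) (fun k => Nat.cast_nonneg (GG c k))
        (abs_dd c) ht.le h hs
      have h0 : ∑' n, (dd c n : ℝ) * t0 ^ n = 0 := hz h
      simp only [ident_GG h2, one_mul, h0, mul_zero, tsum_geometric_of_lt_one ht.le h] at hm
      exact absurd hm.symm (inv_pos.2 (by linarith)).ne'
    · rw [h]
      simp only [Real.log_one, neg_zero, EReal.coe_zero]
      exact Dynamics.coverEntropy_nonneg _ ⟨0, by constructor <;> linarith [be_ge c]⟩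

lemma Th_mono (c : ℝ) {P Q : ℝ × Bool} (h : LE2 P Q) {t0 : ℝ} (ht : 0 < t0) (ht1 : t0 < 1)
    (hpos : ∀ t, 0 ≤ t → t < t0 → 0 < DD c t) : Th c P t0 ≤ Th c Q t0 := by
  have key : ∀ r ∈ Set.Ioo 0 t0, Th c P r ≤ Th c Q r := by
    intro r hr
    have hr1 : r < 1 := hr.2.trans ht1
    have hid : ∀ n, ∑ k ∈ range (n + 1), (gg c k P Q : ℝ) * (dd c (n - k) : ℝ) =
        ((th c n Q : ℝ) - th c n P) / 2 := fun n => by
      have := ident c n P Q h
      have h' : ((th c n Q : ℝ) - th c n P) =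
        2 * ∑ k ∈ range (n + 1), (gg c k P Q : ℝ) * (dd c (n - k) : ℝ) := by exact_mod_cast this
      linarith
    have hs := prings (fun k => (gg c k P Q : ℝ)) (fun n => (dd c n : ℝ))
      (fun k => Nat.cast_nonneg _) (abs_dd c) (by simp [dd]) (fun n => by
        rw [hid, abs_le]
        have h1 := abs_le.1 (abs_th c n P).le
        have h2 := abs_le.1 (abs_th c n Q).le
        constructor <;> linarith [h1.1, h1.2, h2.1, h2.2]) hr.1.le hr1
      fun t h => hpos t h.1 (h.2.trans_lt hr.2)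
    have hm := series_mul _ (fun n => (dd c n : ℝ)) (fun k => Nat.cast_nonneg (gg c k P Q))
      (abs_dd c) hr.1.le hr1 hs
    have h3 : 0 ≤ (∑' k, (gg c k P Q : ℝ) * r ^ k) * ∑' n, (dd c n : ℝ) * r ^ n :=
      mul_nonneg (tsum_nonneg fun k => mul_nonneg (Nat.cast_nonneg _) (pow_nonneg hr.1.le k))
        (hpos r hr.1.le hr.2).le
    have h4 : ∑' n, ((th c n Q : ℝ) - th c n P) / 2 * r ^ n = (Th c Q r - Th c P r) / 2 := by
      unfold Th
      rw [← (summ_th c Q hr.1.le hr1).tsum_sub (summ_th c P hr.1.le hr1), ← tsum_div_const]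
      congr 1; ext n; ring
    simp only [hid] at hm
    rw [hm, h4] at h3
    linarith
  have hne : (𝓝[Set.Ioo 0 t0] t0).NeBot := by
    rw [← mem_closure_iff_nhdsWithin_neBot, closure_Ioo ht.ne]; exact ⟨ht.le, le_rfl⟩
  have hc : ∀ R, Tendsto (Th c R) (𝓝[Set.Ioo 0 t0] t0) (𝓝 (Th c R t0)) := fun R =>
    ((Th_cont c R ht1) t0 ⟨ht.le, le_rfl⟩).mono Set.Ioo_subset_Icc_self
  exact le_of_tendsto_of_tendsto (hc P) (hc Q) (eventually_nhdsWithin_of_forall key)

lemma iter_fst (c : ℝ) (n : ℕ) :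
    ((F c)^[n] (c, true)).1 = (fun x : ℝ => x ^ 2 + c)^[n + 1] 0 := by
  induction n with
  | zero => simp
  | succ n ih =>
    rw [Function.iterate_succ_apply', Function.iterate_succ_apply' (n := n + 1), ← ih]; rfl

lemma PCF.per {c : ℝ} (h : PCF c) :
    ∃ n p, 0 < p ∧ (F c)^[n + p] (c, true) = (F c)^[n] (c, true) := by
  have hf : ((Set.range fun n : ℕ => (fun x : ℝ => x ^ 2 + c)^[n + 1] 0) ×ˢ
      (Set.univ : Set Bool)).Finite := Set.Finite.prod h Set.finite_univ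
  have hm : ∀ n : ℕ, (F c)^[n] (c, true) ∈
      (Set.range fun n : ℕ => (fun x : ℝ => x ^ 2 + c)^[n + 1] 0) ×ˢ (Set.univ : Set Bool) :=
    fun n => ⟨⟨n, (iter_fst c n).symm⟩, trivial⟩
  obtain ⟨a, b, hab, he⟩ := Set.Finite.exists_lt_map_eq_of_forall_mem hm hf
  exact ⟨a, b - a, Nat.sub_pos_of_lt hab, by rw [Nat.add_sub_cancel' hab.le]; exact he.symm⟩

/-- The entropy of a postcritically finite real quadratic map comes from a tent orbit. -/
theorem tent_of_pcf {c : ℝ} (h : PCF c) :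
    Real.exp (ent c).toReal = 1 ∨ ∃ x e, Tent (Real.exp (ent c).toReal) x e := by
  obtain ⟨t0, hh, h1, hpos, hz⟩ := exists_t0 c
  have ht : 0 < t0 := by linarith
  have he := ent_eq h.mem.1 h.mem.2 ht h1 hpos hz
  have hl : Real.exp (ent c).toReal = t0⁻¹ := by
    rw [he, EReal.toReal_coe, Real.exp_neg, Real.exp_log ht]
  rw [hl]
  rcases h1.lt_or_eq with h1 | h1
  swap
  · left; simp [h1]
  right
  have hx0 : -t0 * Th c (c, true) t0 = 1 := by
    have := hz h1
    rw [DD_eq c ht.le h1] at this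
    linarith
  have hsg : ∀ P, eps P = 1 ∨ eps P = -1 := fun P => by unfold eps; split_ifs <;> simp
  refine ⟨fun n => -t0 * Th c ((F c)^[n] (c, true)) t0, fun n => eps ((F c)^[n] (c, true)),
    (one_lt_inv₀ ht).2 h1, ?_, hx0, fun n => hsg _, fun n => ?_, fun n => ?_, ?_⟩
  · rw [inv_le_comm₀ ht (by norm_num)]; linarith
  · simp only [Function.iterate_succ_apply']
    rw [Th_eq c ((F c)^[n] (c, true)) ht.le h1]
    rcases hsg ((F c)^[n] (c, true)) with h' | h' <;> rw [h'] <;> push_cast <;> field_simp <;> ring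
  · cases n with
    | zero => exact hx0.le
    | succ n =>
      simp only [Function.iterate_succ_apply']
      have := Th_mono c (crit_le c ((F c)^[n] (c, true))) ht h1 hpos
      nlinarith
  · obtain ⟨n, p, hp, hn⟩ := h.per
    refine ⟨n, p, hp, by simp only [hn], fun k => ?_⟩
    have : n + k + p = k + (n + p) := by ring
    show eps ((F c)^[n + k + p] (c, true)) = eps ((F c)^[n + k] (c, true))
    rw [this, Function.iterate_add_apply _ k (n + p), hn, add_comm n k,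
      Function.iterate_add_apply _ k n]

lemma exp_ent {c : ℝ} (h : PCF c) {t0 : ℝ} (ht : 0 < t0) (ht1 : t0 ≤ 1)
    (hpos : ∀ t, 0 ≤ t → t < t0 → 0 < DD c t) (hz : t0 < 1 → DD c t0 = 0) :
    Real.exp (ent c).toReal = t0⁻¹ := by
  rw [ent_eq h.mem.1 h.mem.2 ht ht1 hpos hz, EReal.toReal_coe, Real.exp_neg, Real.exp_log ht]

end Pool.Agent.MP_994d64_an

end

section

namespace Pool.Agent.MP_994d64_an

open Polynomial

/-- The polynomials whose values are the orbit. -/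
noncomputable def ConjP (e : ℕ → ℤ) : ℕ → ℤ[X]
  | 0 => 1
  | n + 1 => 1 + C (e n) * X * ConjP e n

lemma Conj_natDegree (e : ℕ → ℤ) (n : ℕ) : (ConjP e n).natDegree ≤ n := by
  induction n with
  | zero => simp [ConjP]
  | succ n ih =>
    rw [ConjP]
    refine (natDegree_add_le _ _).trans (max_le (by simp) ?_)
    refine natDegree_mul_le.trans ?_
    have : (C (e n) * X : ℤ[X]).natDegree ≤ 1 := natDegree_mul_le.trans (by simp)
    omega

lemma Conj_coeff {e : ℕ → ℤ} (he : ∀ n, e n = 1 ∨ e n = -1) (n : ℕ) :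
    (ConjP e n).coeff n * (ConjP e n).coeff n = 1 := by
  induction n with
  | zero => simp [ConjP]
  | succ n ih =>
    have : (ConjP e (n + 1)).coeff (n + 1) = e n * (ConjP e n).coeff n := by
      rw [ConjP, coeff_add, mul_assoc, coeff_C_mul, coeff_X_mul, coeff_one]; simp
    rw [this]
    rcases he n with h | h <;> rw [h] <;> linear_combination ih

lemma Conj_aeval_ww (e : ℕ → ℤ) (z : ℂ) (n : ℕ) : aeval z (ConjP e n) = ww e z n := by
  induction n with
  | zero => simp [ConjP, ww]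
  | succ n ih => simp [ConjP, ww, ih]

lemma Conj_aeval_x {l : ℝ} {x : ℕ → ℝ} {e : ℕ → ℤ} (T : Tent l x e) (n : ℕ) :
    aeval l (ConjP e n) = x n := by
  induction n with
  | zero => simp [ConjP, T.x0]
  | succ n ih => simp [ConjP, T.step, ih]

lemma Conj_root {l : ℝ} {z : ℂ} (hz : aeval z (minpoly ℚ l) = 0) {q : ℤ[X]} (hq : aeval l q = 0) :
    aeval z q = 0 := by
  have h1 : aeval l (q.map (algebraMap ℤ ℚ)) = 0 := by rwa [aeval_map_algebraMap]
  obtain ⟨r, hr⟩ := minpoly.dvd ℚ l h1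
  rw [← aeval_map_algebraMap ℚ, hr, map_mul, hz, zero_mul]

lemma Conj_max {g : ℕ → ℝ} {N p : ℕ} (hp : 0 < p) (h : ∀ k, g (N + k + p) = g (N + k)) :
    ∃ m, ∀ n, g n ≤ g m := by
  obtain ⟨m, -, hm⟩ := Finset.exists_max_image (Finset.range (N + p)) g ⟨0, by simp; omega⟩
  refine ⟨m, fun n => ?_⟩
  induction n using Nat.strong_induction_on with
  | _ n ih =>
    rcases lt_or_ge n (N + p) with h1 | h1
    · exact hm n (Finset.mem_range.2 h1)
    · obtain ⟨k, rfl⟩ : ∃ k, n = N + k + p := ⟨n - N - p, by omega⟩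
      rw [h]; exact ih _ (by omega)

lemma Conj_per {l : ℝ} {x : ℕ → ℝ} {e : ℕ → ℤ} (T : Tent l x e) {z : ℂ}
    (hz : aeval z (minpoly ℚ l) = 0) : ∃ N p, 0 < p ∧ (∀ k, x (N + k + p) = x (N + k)) ∧
      ∀ k, ww e z (N + k + p) = ww e z (N + k) := by
  obtain ⟨N, p, hp, h1, h2⟩ := T.per
  have h3 : ww e z (N + p) = ww e z N := by
    have := Conj_root hz (q := ConjP e (N + p) - ConjP e N) (by
      rw [map_sub, Conj_aeval_x T, Conj_aeval_x T, h1, sub_self])
    rwa [map_sub, Conj_aeval_ww, Conj_aeval_ww, sub_eq_zero] at this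
  refine ⟨N, p, hp, fun k => ?_, fun k => ?_⟩
  · induction k with
    | zero => exact h1
    | succ k ih =>
      rw [show N + (k + 1) + p = N + k + p + 1 by ring, ← add_assoc, T.step, T.step, ih, h2]
  · induction k with
    | zero => exact h3
    | succ k ih =>
      rw [show N + (k + 1) + p = N + k + p + 1 by ring, ← add_assoc, ww, ww, ih, h2]

theorem Tent.isIntegral {l : ℝ} {x : ℕ → ℝ} {e : ℕ → ℤ} (T : Tent l x e) : IsIntegral ℤ l := by
  obtain ⟨N, p, hp, h1, -⟩ := T.per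
  refine ⟨C ((ConjP e (N + p)).coeff (N + p)) * (ConjP e (N + p) - ConjP e N), ?_, ?_⟩
  · refine monic_of_natDegree_le_of_coeff_eq_one (N + p) ?_ ?_
    · refine (natDegree_C_mul_le _ _).trans ((natDegree_sub_le _ _).trans (max_le ?_ ?_))
      · exact Conj_natDegree _ _
      · exact (Conj_natDegree _ _).trans (by omega)
    · rw [coeff_C_mul, coeff_sub, coeff_eq_zero_of_natDegree_lt (p := ConjP e N)
        ((Conj_natDegree _ _).trans_lt (by omega)), sub_zero, Conj_coeff T.sign]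
  · rw [← aeval_def, map_mul, map_sub, Conj_aeval_x T, Conj_aeval_x T, h1, sub_self, mul_zero]

theorem Tent.ww_bdd {l : ℝ} {x : ℕ → ℝ} {e : ℕ → ℤ} (T : Tent l x e) {z : ℂ}
    (hz : aeval z (minpoly ℚ l) = 0) : ∃ M : ℝ, ∀ n, ‖ww e z n‖ ≤ M := by
  obtain ⟨N, p, hp, -, h⟩ := Conj_per T hz
  obtain ⟨m, hm⟩ := Conj_max (g := fun n => ‖ww e z n‖) hp fun k => by rw [h k]
  exact ⟨_, hm⟩

lemma Conj_norm_e {e : ℕ → ℤ} (he : ∀ n, e n = 1 ∨ e n = -1) (n : ℕ) : ‖(e n : ℂ)‖ = 1 := by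
  rcases he n with h | h <;> simp [h]

theorem Tent.ww_le {l : ℝ} {x : ℕ → ℝ} {e : ℕ → ℤ} (T : Tent l x e) {z : ℂ}
    (hz : aeval z (minpoly ℚ l) = 0) (h1 : 1 < ‖z‖) (n : ℕ) : ‖ww e z n‖ ≤ 1 / (‖z‖ - 1) := by
  obtain ⟨N, p, hp, -, h⟩ := Conj_per T hz
  obtain ⟨m, hm⟩ := Conj_max (g := fun n => ‖ww e z n‖) hp fun k => by rw [h k]
  refine (hm n).trans ?_
  have h2 : ‖z‖ * ‖ww e z m‖ = ‖ww e z (m + 1) - 1‖ := by
    rw [ww, add_sub_cancel_left, norm_mul, norm_mul, Conj_norm_e T.sign, one_mul]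
  have h3 := norm_sub_le (ww e z (m + 1)) 1
  have h4 : ‖ww e z (m + 1)‖ ≤ ‖ww e z m‖ := hm (m + 1)
  rw [norm_one] at h3
  rw [le_div_iff₀ (by linarith)]
  show ‖ww e z m‖ * (‖z‖ - 1) ≤ 1
  linarith

lemma Conj_a_nonneg {l : ℝ} {x : ℕ → ℝ} {e : ℕ → ℤ} (T : Tent l x e) (n : ℕ) :
    0 ≤ -(e n * x n) := by
  have h1 := T.step n
  have h2 := T.le_one (n + 1)
  have h3 := T.one_lt
  by_contra h
  push Not at h
  nlinarith

lemma Conj_a_abs {l : ℝ} {x : ℕ → ℝ} {e : ℕ → ℤ} (T : Tent l x e) (n : ℕ) :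
    -(e n * x n) = |x n| := by
  have h1 := Conj_a_nonneg T n
  rcases T.sign n with h | h <;> rw [h] at h1 ⊢ <;> push_cast at h1 ⊢
  · rw [abs_of_nonpos (by linarith)]; ring
  · rw [abs_of_nonneg (by linarith)]; ring

lemma Conj_step {l : ℝ} {x : ℕ → ℝ} {e : ℕ → ℤ} (T : Tent l x e) (n : ℕ) :
    x (n + 1) = 1 - l * |x n| := by
  rw [T.step, ← Conj_a_abs T]; ring

lemma Conj_abs_le {l : ℝ} {x : ℕ → ℝ} {e : ℕ → ℤ} (T : Tent l x e) (n : ℕ) : |x n| ≤ 1 := by
  induction n with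
  | zero => simp [T.x0]
  | succ n ih =>
    refine abs_le.2 ⟨?_, T.le_one _⟩
    have h1 := T.le_two
    have h2 := abs_nonneg (x n)
    rw [Conj_step T]
    nlinarith

lemma Conj_convex (s : ℂ) (a : ℝ) :
    ‖1 - s * a‖ ^ 2 = (1 - a) + a * ‖1 - s‖ ^ 2 - a * (1 - a) * ‖s‖ ^ 2 := by
  simp only [Complex.sq_norm, Complex.normSq_apply, Complex.sub_re, Complex.sub_im, Complex.mul_re,
    Complex.mul_im, Complex.one_re, Complex.one_im, Complex.ofReal_re, Complex.ofReal_im]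
  ring

theorem Tent.conj_lt {l : ℝ} {x : ℕ → ℝ} {e : ℕ → ℤ} (T : Tent l x e) {z : ℂ}
    (hz : aeval z (minpoly ℚ l) = 0) (hne : z ≠ l) :
    ‖z‖ < √2 ∨ (l = √2 ∧ z = -(√2 : ℝ)) := by
  obtain ⟨N, p, hp, hx, hw⟩ := Conj_per T hz
  have hl1 := T.one_lt
  have hl2 := T.le_two
  have hd : z - l ≠ 0 := sub_ne_zero.2 hne
  obtain ⟨u, hu⟩ : ∃ u : ℕ → ℂ, ∀ n, u n = (ww e z n - x n) / (z - l) := ⟨_, fun _ => rfl⟩
  have u0 : u 0 = 0 := by rw [hu, ww, T.x0]; simp
  have us : ∀ n, u (n + 1) = e n * (z * u n + x n) := fun n => by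
    rw [hu, hu, ww, T.step]; push_cast; field_simp; ring
  have us2 : ∀ n, u (n + 2) = e (n + 1) * (e n * z ^ 2 * u n + (1 - (z + l) * (|x n| : ℝ))) :=
    fun n => by
      rw [us, us, T.step, ← Conj_a_abs T]; push_cast; ring
  have x1 : |x 1| = l - 1 := by
    rw [Conj_step T, T.x0, abs_one, mul_one, abs_of_nonpos (by linarith)]; ring
  have x2 : x 2 = 1 - l * (l - 1) := by rw [Conj_step T, x1]
  have u1 : ‖u 1‖ = 1 := by
    rw [us, u0, T.x0, norm_mul, Conj_norm_e T.sign]; simp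
  have u2 : ‖u 2‖ = ‖1 - (z + l)‖ := by
    rw [us2 0, u0, T.x0, norm_mul, Conj_norm_e T.sign]; simp
  obtain ⟨m, hm⟩ := Conj_max (g := fun n => ‖u n‖) hp fun k => by rw [hu, hu, hx, hw]
  replace hm : ∀ n, ‖u n‖ ≤ ‖u m‖ := hm
  have key : ∀ n, ‖z‖ ^ 2 * ‖u n‖ ≤ ‖u m‖ + ‖1 - (z + l) * (|x n| : ℝ)‖ := fun n => by
    have h1 : ‖u (n + 2)‖ = ‖e n * z ^ 2 * u n + (1 - (z + l) * (|x n| : ℝ))‖ := by
      rw [us2, norm_mul, Conj_norm_e T.sign, one_mul]
    have h2 : ‖z‖ ^ 2 * ‖u n‖ = ‖e n * z ^ 2 * u n‖ := by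
      rw [norm_mul, norm_mul, Conj_norm_e T.sign, one_mul, norm_pow]
    have h3 := norm_sub_le (e n * z ^ 2 * u n + (1 - (z + l) * (|x n| : ℝ)))
      (1 - (z + l) * (|x n| : ℝ))
    rw [add_sub_cancel_right, ← h1, ← h2] at h3
    linarith [hm (n + 2)]
  obtain ⟨j, hj, hj1, hj2⟩ : ∃ j, (j = 1 ∨ j = 2) ∧ 1 ≤ ‖u j‖ ∧ ‖1 - (z + l)‖ ≤ ‖u j‖ := by
    rcases le_total 1 ‖1 - (z + l)‖ with h | h
    · exact ⟨2, Or.inr rfl, by rw [u2]; exact h, u2.ge⟩
    · exact ⟨1, Or.inl rfl, u1.ge, by rw [u1]; exact h⟩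
  have hsq : ∀ n, ‖1 - (z + l) * (|x n| : ℝ)‖ ^ 2 ≤
      ‖u j‖ ^ 2 - |x n| * (1 - |x n|) * ‖z + l‖ ^ 2 := fun n => by
    have h1 := abs_nonneg (x n)
    have h2 := Conj_abs_le T n
    have h3 : ‖1 - (z + l)‖ ^ 2 ≤ ‖u j‖ ^ 2 := by gcongr
    have h4 : 1 ≤ ‖u j‖ ^ 2 := one_le_pow₀ hj1
    rw [Conj_convex]
    nlinarith [mul_le_mul_of_nonneg_left h3 h1, mul_le_mul_of_nonneg_left h4 (sub_nonneg.2 h2)]
  have hK : ∀ n, ‖1 - (z + l) * (|x n| : ℝ)‖ ≤ ‖u j‖ := fun n => by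
    refine (pow_le_pow_iff_left₀ (norm_nonneg _) (norm_nonneg _) two_ne_zero).1 ((hsq n).trans ?_)
    have h1 := abs_nonneg (x n)
    have h2 := sub_nonneg.2 (Conj_abs_le T n)
    have : 0 ≤ |x n| * (1 - |x n|) * ‖z + l‖ ^ 2 := by positivity
    linarith
  by_cases hlt : ‖z‖ < √2
  · exact Or.inl hlt
  right
  have hz2 : 2 ≤ ‖z‖ ^ 2 := by
    have := pow_le_pow_left₀ (Real.sqrt_nonneg 2) (not_lt.1 hlt) 2
    rwa [Real.sq_sqrt (by norm_num)] at this
  have hjm := hm j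
  have hM : ‖u m‖ ≤ ‖u j‖ := by nlinarith [key m, hK m]
  have hz3 : ‖z‖ ^ 2 ≤ 2 := by
    by_contra h
    push Not at h
    nlinarith [key m, hK m]
  have h5 : ‖u j‖ ≤ ‖1 - (z + l) * (|x j| : ℝ)‖ := by nlinarith [key j]
  have h6 : |x j| * (1 - |x j|) * ‖z + l‖ ^ 2 = 0 := by
    have h1 := abs_nonneg (x j)
    have h2 := sub_nonneg.2 (Conj_abs_le T j)
    have h3 : ‖u j‖ ^ 2 ≤ ‖1 - (z + l) * (|x j| : ℝ)‖ ^ 2 := by gcongr
    exact le_antisymm (by linarith [hsq j]) (by positivity)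
  have hl : l ≠ 2 := fun h => hne (by
    have := Conj_root hz (q := X - 2) (by simp [h, map_ofNat])
    rw [h]
    simpa [sub_eq_zero, map_ofNat] using this)
  have hg : l ^ 2 ≠ l + 1 := fun h => by
    have h1 := Conj_root hz (q := X ^ 2 - X - 1) (by simp; linarith)
    have h2 : z ^ 2 - z - 1 = 0 := by simpa using h1
    have h3 : (l : ℂ) ^ 2 = l + 1 := by exact_mod_cast h
    have h4 : z = ((1 - l : ℝ) : ℂ) := by
      apply mul_left_cancel₀ hd
      push_cast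
      linear_combination h2 - h3
    rw [h4, Complex.norm_real, Real.norm_eq_abs, sq_abs] at hz2
    nlinarith
  rcases mul_eq_zero.1 h6 with h7 | h7
  · exfalso
    rcases hj with rfl | rfl
    · rw [x1] at h7
      rcases mul_eq_zero.1 h7 with h | h
      · linarith
      · exact hl (by linarith)
    · rcases mul_eq_zero.1 h7 with h | h
      · rw [abs_eq_zero, x2] at h
        exact hg (by linarith)
      · have h8 : |x 2| = 1 := by linarith
        rw [x2] at h8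
        rcases (abs_eq zero_le_one).1 h8 with h9 | h9
        · nlinarith
        · have : (l - 2) * (l + 1) = 0 := by linarith
          rcases mul_eq_zero.1 this with h | h
          · exact hl (by linarith)
          · linarith
  · have h8 : z = -(l : ℂ) := by
      rw [pow_eq_zero_iff two_ne_zero, norm_eq_zero] at h7
      linear_combination h7
    have h9 : l ^ 2 = 2 := by
      rw [h8, norm_neg, Complex.norm_real, Real.norm_eq_abs, sq_abs] at hz2 hz3
      linarith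
    have h10 : l = √2 := by
      rw [← h9, Real.sqrt_sq (by linarith)]
    exact ⟨h10, by rw [h8, h10]⟩

end Pool.Agent.MP_994d64_an

end
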