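import Pool.Agent.Mg.F994d64.G0524dd

namespace Pool.Agent.MP_994d64_an

open Polynomial

lemma TotReal_norm_le {w : ℂ} {r : ℝ} (hr : |r| ≤ 2) (h : w ^ 2 - r * w + 1 = 0) : ‖w‖ ≤ 1 := by
  have h1 := congrArg Complex.re h
  have h2 := congrArg Complex.im h
  simp [sq] at h1 h2
  have h3 := abs_le.1 hr
  rw [← sq_le_one_iff₀ (norm_nonneg _), Complex.sq_norm, Complex.normSq_apply]
  by_cases h0 : w.im = 0
  · rw [h0] at h1 ⊢
    have h4 : |r * w.re| ≤ 2 * |w.re| := by rw [abs_mul]; gcongr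
    have h5 := le_abs_self (r * w.re)
    have h6 := abs_mul_abs_self w.re
    nlinarith [sq_nonneg (|w.re| - 1), abs_nonneg w.re]
  · have h4 : r = 2 * w.re := by
      apply mul_right_cancel₀ h0
      linarith
    rw [h4] at h1
    nlinarith

lemma TotReal_int {l ζ : ℂ} (hl : IsIntegral ℤ l) (h : ζ ^ 2 - l * ζ + 1 = 0) : IsIntegral ℤ ζ := by
  refine IsIntegral.of_aeval_monic_of_isIntegral_coeff (p := X ^ 2 - C l * X + 1) (by monicity!)
    ?_ ?_ fun i => ?_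
  · have : (X ^ 2 - C l * X + 1 : ℂ[X]).natDegree = 2 := by compute_degree!
    omega
  · simp only [eval_add, eval_sub, eval_pow, eval_X, eval_mul, eval_C, eval_one, h]
    exact isIntegral_zero
  · simp only [coeff_add, coeff_sub, coeff_X_pow, coeff_C_mul, coeff_X, coeff_one]
    refine (IsIntegral.sub ?_ (hl.mul ?_)).add ?_ <;> split_ifs <;>
      first | exact isIntegral_one | exact isIntegral_zero

lemma TotReal_root (l : ℝ) : aeval (l : ℂ) (minpoly ℚ l) = 0 := by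
  rw [← Complex.coe_algebraMap, aeval_algebraMap_apply, minpoly.aeval, map_zero]

open IntermediateField in
lemma TotReal_prim {l : ℝ} (hl : IsIntegral ℤ l)
    (hc : ∀ z : ℂ, aeval z (minpoly ℚ l) = 0 → z.im = 0 ∧ ‖z‖ ≤ 2) {ζ : ℂ}
    (h : ζ ^ 2 - l * ζ + 1 = 0) : ∃ n, 0 < n ∧ IsPrimitiveRoot ζ n := by
  have hi : IsIntegral ℤ ζ := TotReal_int (hl.map (IsScalarTower.toAlgHom ℤ ℝ ℂ)) h
  have h0 : ζ ≠ 0 := by rintro rfl; simp at h
  let K := ℚ⟮ζ⟯
  let : NumberField K := {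
    to_charZero := ℚ⟮ζ⟯.charZero,
    to_finiteDimensional := adjoin.finiteDimensional hi.tower_top }
  let y : K := ⟨ζ, mem_adjoin_simple_self ℚ ζ⟩
  have hy0 : y ≠ 0 := Subtype.coe_ne_coe.mp h0
  suffices ∃ (n : ℕ) (_ : 0 < n), y ^ n = 1 by
    obtain ⟨n, hn₀, hn₁⟩ := this
    exact IsPrimitiveRoot.exists_pos (congrArg (algebraMap K ℂ) hn₁) hn₀.ne'
  refine NumberField.Embeddings.pow_eq_one_of_norm_le_one (x := y) K ℂ hy0
    (coe_isIntegral_iff.mp hi) fun φ => ?_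
  have hs : algebraMap K ℂ (y + y⁻¹) = l := by
    rw [map_add, map_inv₀]
    change ζ + ζ⁻¹ = l
    field_simp
    linear_combination h
  have h1 : aeval (y + y⁻¹) (minpoly ℚ l) = 0 := by
    apply (algebraMap K ℂ).injective
    rw [← aeval_algebraMap_apply, hs, TotReal_root, map_zero]
  have h2 : aeval (φ (y + y⁻¹)) (minpoly ℚ l) = 0 := by
    have := aeval_algHom_apply φ.toRatAlgHom (y + y⁻¹) (minpoly ℚ l)
    rw [h1, map_zero] at this
    exact this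
  obtain ⟨h3, h4⟩ := hc _ h2
  have h5 : ((φ (y + y⁻¹)).re : ℂ) = φ (y + y⁻¹) := Complex.ext rfl (by simp only [h3, Complex.ofReal_im])
  refine TotReal_norm_le ((Complex.abs_re_le_norm _).trans h4) ?_
  have h6 : φ y ≠ 0 := by simpa using hy0
  rw [h5, map_add, map_inv₀]
  field_simp
  ring

lemma TotReal_conj {l : ℝ} {ζ w : ℂ} {n : ℕ} (hn : 0 < n) (h : ζ ^ 2 - l * ζ + 1 = 0)
    (hζ : IsPrimitiveRoot ζ n) (hw : IsPrimitiveRoot w n) : aeval (w + w⁻¹) (minpoly ℚ l) = 0 := by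
  have key : ∀ u : ℂ, IsPrimitiveRoot u n →
      aeval u ((minpoly ℚ l).comp (X + X ^ (n - 1))) = aeval (u + u⁻¹) (minpoly ℚ l) := by
    intro u hu
    have : u ^ (n - 1) = u⁻¹ := by
      apply eq_inv_of_mul_eq_one_left
      rw [← pow_succ, Nat.sub_add_cancel hn, hu.pow_eq_one]
    rw [aeval_comp, map_add, map_pow, aeval_X, this]
  have h0 : ζ ≠ 0 := hζ.ne_zero hn.ne'
  have h1 : ζ + ζ⁻¹ = l := by field_simp; linear_combination h
  have h2 := minpoly.dvd ℚ ζ ((key ζ hζ).trans (h1 ▸ TotReal_root l))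
  rw [← cyclotomic_eq_minpoly_rat hζ hn, cyclotomic_eq_minpoly_rat hw hn] at h2
  rw [← key w hw]
  exact aeval_eq_zero_of_dvd_aeval_eq_zero h2 (minpoly.aeval _ _)

lemma TotReal_k {n : ℕ} (hn : 0 < n) : (∃ k : ℕ, k.Coprime n ∧ 3 * n ≤ 8 * k ∧ 2 * k ≤ n) ∨
    n ∣ 4 ∨ n ∣ 6 ∨ n = 10 ∨ n = 14 := by
  by_cases h : 16 ≤ n
  · left
    rcases (by omega : n % 2 = 1 ∨ n % 4 = 0 ∨ n % 4 = 2) with h1 | h1 | h1
    · obtain ⟨k, rfl⟩ : ∃ k, n = 2 * k + 1 := ⟨n / 2, by omega⟩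
      exact ⟨k, by simp, by omega, by omega⟩
    · obtain ⟨k, rfl⟩ : ∃ k, n = 4 * k + 4 := ⟨n / 4 - 1, by omega⟩
      refine ⟨2 * k + 1, ?_, by omega, by omega⟩
      rw [show 4 * k + 4 = 2 + (2 * k + 1) * 2 by ring, Nat.coprime_add_mul_left_right]
      simp
    · obtain ⟨k, rfl⟩ : ∃ k, n = 4 * k + 6 := ⟨n / 4 - 1, by omega⟩
      refine ⟨2 * k + 1, ?_, by omega, by omega⟩
      rw [show 4 * k + 6 = 2 ^ 2 + (2 * k + 1) * 2 by ring, Nat.coprime_add_mul_left_right]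
      exact Nat.Coprime.pow_right 2 (by simp)
  · have h1 : n < 16 := by omega
    interval_cases n
    all_goals first
      | (right; norm_num; done)
      | (refine Or.inl ⟨2, ?_⟩; norm_num; done)
      | (refine Or.inl ⟨3, ?_⟩; norm_num; done)
      | (refine Or.inl ⟨4, ?_⟩; norm_num; done)
      | (refine Or.inl ⟨5, ?_⟩; norm_num; done)
      | (refine Or.inl ⟨7, ?_⟩; norm_num; done)

lemma TotReal_cos {n k : ℕ} (hn : 0 < n) (h1 : 3 * n ≤ 8 * k) (h2 : 2 * k ≤ n) :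
    2 * Real.cos (2 * Real.pi * (k / n)) ≤ -√2 := by
  have hn' : (0 : ℝ) < n := by exact_mod_cast hn
  have h3 : (3 / 8 : ℝ) ≤ k / n := by
    rw [div_le_div_iff₀ (by norm_num) hn']
    exact_mod_cast (by omega : 3 * n ≤ k * 8)
  have h4 : (k / n : ℝ) ≤ 1 / 2 := by
    rw [div_le_div_iff₀ hn' (by norm_num)]
    exact_mod_cast (by omega : k * 2 ≤ 1 * n)
  have hpi := Real.pi_pos
  have h5 := Real.cos_le_cos_of_nonneg_of_le_pi (x := Real.pi - Real.pi / 4)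
    (y := 2 * Real.pi * (k / n)) (by linarith) (by nlinarith) (by nlinarith)
  rw [Real.cos_pi_sub, Real.cos_pi_div_four] at h5
  linarith

lemma TotReal_sign {l : ℝ} {x : ℕ → ℝ} {e : ℕ → ℤ} (T : Tent l x e) (n : ℕ) :
    (0 < x n → e n = -1) ∧ (x n < 0 → e n = 1) := by
  have h1 := T.le_one (n + 1)
  have h2 := T.one_lt
  rw [T.step] at h1
  rcases T.sign n with h | h <;> rw [h] at h1 ⊢ <;> push_cast at h1 <;>
    refine ⟨fun h3 => ?_, fun h3 => ?_⟩ <;> first | rfl | nlinarith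

lemma TotReal_seven {l : ℝ} {x : ℕ → ℝ} {e : ℕ → ℤ} (T : Tent l x e)
    (h : l ^ 3 - l ^ 2 - 2 * l + 1 = 0) (hz : aeval ((2 - l ^ 2 : ℝ) : ℂ) (minpoly ℚ l) = 0) :
    False := by
  have h1 := T.one_lt
  have h2 : 1.8 < l := by nlinarith
  have h3 : l < 1.81 := by nlinarith
  have e0 : e 0 = -1 := (TotReal_sign T 0).1 (by rw [T.x0]; norm_num)
  have x1 : x 1 = 1 - l := by rw [T.step, e0, T.x0]; push_cast; ring
  have e1 : e 1 = 1 := (TotReal_sign T 1).2 (by rw [x1]; linarith)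
  have x2 : x 2 = 1 + l - l ^ 2 := by rw [T.step, e1, x1]; push_cast; ring
  have e2 : e 2 = 1 := (TotReal_sign T 2).2 (by rw [x2]; nlinarith)
  have x3 : x 3 = 2 - l := by rw [T.step, e2, x2]; push_cast; linear_combination -h
  have e3 : e 3 = -1 := (TotReal_sign T 3).1 (by rw [x3]; linarith)
  have hn : ‖((2 - l ^ 2 : ℝ) : ℂ)‖ = l ^ 2 - 2 := by
    rw [Complex.norm_real, Real.norm_eq_abs, abs_of_neg (by nlinarith)]; ring
  have h4 := T.ww_le hz (by rw [hn]; nlinarith) 4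
  have h5 : ww e ((2 - l ^ 2 : ℝ) : ℂ) 4 = (((l ^ 2 - 1) ^ 2 : ℝ) : ℂ) := by
    have h' : (l : ℂ) ^ 3 - l ^ 2 - 2 * l + 1 = 0 := by exact_mod_cast h
    simp only [ww, e0, e1, e2, e3]
    push_cast
    linear_combination ((l : ℂ) ^ 2 - 2) * (l ^ 3 + l ^ 2 - 2 * l - 1) * h'
  rw [h5, hn, Complex.norm_real, Real.norm_eq_abs, abs_of_nonneg (sq_nonneg _),
    le_div_iff₀ (by nlinarith)] at h4
  have h6 : 3.24 < l ^ 2 := by nlinarith
  have h7 : 5 < (l ^ 2 - 1) ^ 2 := by nlinarith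
  nlinarith

theorem Tent.totally_real {l : ℝ} {x : ℕ → ℝ} {e : ℕ → ℤ} (T : Tent l x e)
    (hr : ∀ z : ℂ, aeval z (minpoly ℚ l) = 0 → z.im = 0) :
    l = √2 ∨ l = (1 + √5) / 2 ∨ l = 2 := by
  have h1 := T.one_lt
  have hs : √2 ≤ 2 := Real.sqrt_le_iff.2 ⟨by norm_num, by norm_num⟩
  have hs0 := Real.sqrt_nonneg 2
  obtain ⟨ζ, hζ⟩ : ∃ ζ : ℂ, ζ ^ 2 - l * ζ + 1 = 0 := by
    obtain ⟨s, hs⟩ := IsAlgClosed.exists_pow_nat_eq ((l : ℂ) ^ 2 - 4) two_pos
    exact ⟨(l + s) / 2, by linear_combination hs / 4⟩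
  obtain ⟨n, hn, hp⟩ := TotReal_prim T.isIntegral (fun z hz => ⟨hr z hz, by
    by_cases h : z = l
    · rw [h, Complex.norm_real, Real.norm_eq_abs, abs_of_pos (by linarith)]; exact T.le_two
    · rcases T.conj_lt hz h with h2 | ⟨-, h2⟩
      · linarith
      · rw [h2, norm_neg, Complex.norm_real, Real.norm_eq_abs, abs_of_nonneg hs0]; exact hs⟩) hζ
  have h0 : ζ ≠ 0 := hp.ne_zero hn.ne'
  by_cases h2 : ζ ^ 2 - 1 = 0
  · have h3 : (l : ℂ) ^ 2 = 2 ^ 2 := by linear_combination (-2 - l * ζ) * hζ + (2 - l ^ 2 + l * ζ) * h2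
    have h4 : l ^ 2 = 2 ^ 2 := by exact_mod_cast h3
    exact Or.inr (Or.inr (by nlinarith))
  rcases TotReal_k hn with ⟨k, k1, k2, k3⟩ | h | h | rfl | rfl
  · have h3 := TotReal_conj hn hζ hp (Complex.isPrimitiveRoot_exp_of_coprime k n hn.ne' k1)
    have h4 := TotReal_cos hn k2 k3
    have h5 : Complex.exp (2 * Real.pi * Complex.I * (k / n)) +
        (Complex.exp (2 * Real.pi * Complex.I * (k / n)))⁻¹ =
        ((2 * Real.cos (2 * Real.pi * (k / n)) : ℝ) : ℂ) := by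
      rw [← Complex.exp_neg]
      push_cast
      rw [Complex.two_cos]
      congr 2 <;> ring
    rw [h5] at h3
    rcases T.conj_lt h3 (by rw [Ne, Complex.ofReal_inj]; linarith) with h6 | h6
    · rw [Complex.norm_real, Real.norm_eq_abs, abs_of_nonpos (by linarith)] at h6
      linarith
    · exact Or.inl h6.1
  · have h3 := (hp.pow_eq_one_iff_dvd 4).2 h
    have h4 : (ζ ^ 2 - 1) * (ζ * l) = 0 := by linear_combination h3 - (ζ ^ 2 - 1) * hζ
    have h5 : (l : ℂ) = 0 := by simpa [h2, h0] using h4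
    have h6 : l = 0 := by exact_mod_cast h5
    linarith
  · have h3 := (hp.pow_eq_one_iff_dvd 6).2 h
    have h4 : (ζ ^ 2 - 1) * (ζ ^ 2 * (l ^ 2 - 1)) = 0 := by
      linear_combination h3 - (ζ ^ 2 - 1) * (ζ ^ 2 + l * ζ + 1) * hζ
    have h5 : (l : ℂ) ^ 2 - 1 = 0 := by simpa [h2, h0] using h4
    have h6 : l ^ 2 - 1 = 0 := by exact_mod_cast h5
    nlinarith
  · have h3 := hp.pow_eq_one
    have h4 : (ζ ^ 2 - 1) * (ζ ^ 4 * ((l ^ 2 - l - 1) * (l ^ 2 + l - 1))) = 0 := by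
      linear_combination h3 - (ζ ^ 2 - 1) * (ζ ^ 6 + l * ζ ^ 5 + l ^ 2 * ζ ^ 4 +
        (l ^ 3 - l) * ζ ^ 3 + l ^ 2 * ζ ^ 2 + l * ζ + 1) * hζ
    have h5 : ((l : ℂ) ^ 2 - l - 1) * (l ^ 2 + l - 1) = 0 := by simpa [h2, h0] using h4
    have h6 : (l ^ 2 - l - 1) * (l ^ 2 + l - 1) = 0 := by exact_mod_cast h5
    have h7 : l ^ 2 - l - 1 = 0 := (mul_eq_zero.1 h6).resolve_right (by nlinarith)
    have h8 : √5 = 2 * l - 1 := by
      rw [Real.sqrt_eq_iff_mul_self_eq (by norm_num) (by linarith)]; linarith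
    exact Or.inr (Or.inl (by linarith))
  · exfalso
    have h3 : ζ ^ 7 + 1 = 0 := by
      have h4 : (ζ ^ 7 - 1) * (ζ ^ 7 + 1) = 0 := by linear_combination hp.pow_eq_one
      exact (mul_eq_zero.1 h4).resolve_left
        (sub_ne_zero.2 (hp.pow_ne_one_of_pos_of_lt (by norm_num) (by norm_num)))
    have h4 : ζ + 1 ≠ 0 := fun h => h2 (by linear_combination (ζ - 1) * h)
    have h5 : (ζ + 1) * (ζ ^ 3 * (l ^ 3 - l ^ 2 - 2 * l + 1)) = 0 := by
      linear_combination h3 - (ζ + 1) * (ζ ^ 4 + (l - 1) * ζ ^ 3 + (l ^ 2 - l) * ζ ^ 2 +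
        (l - 1) * ζ + 1) * hζ
    have h6 : (l : ℂ) ^ 3 - l ^ 2 - 2 * l + 1 = 0 := by simpa [h4, h0] using h5
    have h7 := TotReal_conj hn hζ hp (hp.pow_of_coprime 5 (by norm_num))
    have h8 : ζ ^ 5 + (ζ ^ 5)⁻¹ = ((2 - l ^ 2 : ℝ) : ℂ) := by
      push_cast
      field_simp
      linear_combination (ζ ^ 3 + 1) * h3 - ζ ^ 3 * (ζ ^ 2 + l * ζ + 1) * hζ
    rw [h8] at h7
    exact TotReal_seven T (by exact_mod_cast h6) h7

theorem real_of_four {l : ℝ} (h : l = 1 ∨ l = √2 ∨ l = (1 + √5) / 2 ∨ l = 2) :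
    ∀ z : ℂ, aeval z (minpoly ℚ l) = 0 → z.im = 0 := by
  have key : ∀ a b : ℚ, l ^ 2 + a * l + b = 0 → 0 < a ^ 2 - 4 * b →
      ∀ z : ℂ, aeval z (minpoly ℚ l) = 0 → z.im = 0 := by
    intro a b h1 h2 z hz
    have h3 := aeval_eq_zero_of_dvd_aeval_eq_zero
      (minpoly.dvd ℚ l (p := X ^ 2 + C a * X + C b) (by simpa using h1)) hz
    have h4 := congrArg Complex.re h3
    have h5 := congrArg Complex.im h3
    simp [sq] at h4 h5
    by_contra h0
    have h6 : (a : ℝ) = -2 * z.re := by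
      apply mul_right_cancel₀ h0
      linarith
    have h7 : (0 : ℝ) < a ^ 2 - 4 * b := by exact_mod_cast h2
    rw [h6] at h4 h7
    nlinarith [sq_nonneg z.im]
  rcases h with h | h | h | h
  · exact key (-1) 0 (by rw [h]; norm_num) (by norm_num)
  · exact key 0 (-2) (by rw [h]; norm_num) (by norm_num)
  · refine key (-1) (-1) ?_ (by norm_num)
    have := Real.sq_sqrt (show (0 : ℝ) ≤ 5 by norm_num)
    rw [h]; push_cast; linarith
  · exact key (-2) 0 (by rw [h]; norm_num) (by norm_num)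

end Pool.Agent.MP_994d64_an
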